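import Pool.Agent.H706.HC.Rich

set_option autoImplicit false
set_option linter.unusedSectionVars false

/-!
# The program of a circuit
-/

namespace Pool.Agent.H706.HC

open Finset Pool.Agent.H88R3.MM Pool.Agent.W946.Kos Pool.Agent.W946.Sz Pool.Agent.H522R2
  Pool.Agent.H522R2.Circuit

variable {F V : Type*} [Field F] [Fintype V] [DecidableEq V]

/-- the constant term -/
noncomputable def cst (C : Circuit F V) (v : Fin C.nodes) : F :=
  MvPolynomial.constantCoeff (C.poly v)

/-- the quadratic part -/
noncomputable def qp (C : Circuit F V) (v : Fin C.nodes) : MvPolynomial V F := quadPart (C.poly v)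

/-- the linear or the quadratic part is not zero -/
def Nz (C : Circuit F V) (v : Fin C.nodes) : Prop := lin C v ≠ 0 ∨ qp C v ≠ 0

open Classical in
/-- the coefficients -/
noncomputable def co (C : Circuit F V) (v : Fin C.nodes) (s : V ⊕ Fin C.nodes) : F :=
  match C.gate v with
  | .var x => if s = Sum.inl x then 1 else 0
  | .const _ => 0
  | .add i j => (if s = Sum.inr (C.up v i) ∧ Nz C (C.up v i) then 1 else 0) +
      (if s = Sum.inr (C.up v j) ∧ Nz C (C.up v j) then 1 else 0)
  | .mul i j => (if s = Sum.inr (C.up v i) ∧ Nz C (C.up v i) then cst C (C.up v j) else 0) +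
      (if s = Sum.inr (C.up v j) ∧ Nz C (C.up v j) then cst C (C.up v i) else 0)

/-- a product of two polynomials with nonzero linear parts -/
def IsProd (C : Circuit F V) (v : Fin C.nodes) : Prop :=
  ∃ i j, C.gate v = Gate.mul i j ∧ lin C (C.up v i) ≠ 0 ∧ lin C (C.up v j) ≠ 0

/-- a product which is not homogeneous -/
def Affine (C : Circuit F V) (v : Fin C.nodes) : Prop :=
  ∃ i j, C.gate v = Gate.mul i j ∧ Nz C (C.up v i) ∧ Nz C (C.up v j) ∧
    (cst C (C.up v i) ≠ 0 ∨ cst C (C.up v j) ≠ 0)

/-- linear parts cancel -/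
def Cancels (C : Circuit F V) (v : Fin C.nodes) : Prop :=
  ∃ i j, C.gate v = Gate.add i j ∧ lin C (C.up v i) ≠ 0 ∧ lin C (C.up v j) ≠ 0 ∧ lin C v = 0 ∧
    qp C v ≠ 0

variable {C : Circuit F V} {v : Fin C.nodes}

theorem lin_add' {i j : Fin (v : ℕ)} (h : C.gate v = Gate.add i j) :
    lin C v = lin C (C.up v i) + lin C (C.up v j) := by
  funext x
  simp only [lin, poly_add h, D1_add, Pi.add_apply]

theorem lin_mul' {i j : Fin (v : ℕ)} (h : C.gate v = Gate.mul i j) :
    lin C v = cst C (C.up v i) • lin C (C.up v j) + cst C (C.up v j) • lin C (C.up v i) := by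
  funext x
  simp only [lin, poly_mul h, D1_mul, Pi.add_apply, Pi.smul_apply, smul_eq_mul, cst]

theorem qp_add {i j : Fin (v : ℕ)} (h : C.gate v = Gate.add i j) :
    qp C v = qp C (C.up v i) + qp C (C.up v j) := by
  simp only [qp, poly_add h, quadPart_add]

theorem qp_mul {i j : Fin (v : ℕ)} (h : C.gate v = Gate.mul i j) :
    qp C v = cst C (C.up v i) • qp C (C.up v j) + cst C (C.up v j) • qp C (C.up v i) +
      form (lin C (C.up v i)) * form (lin C (C.up v j)) := by
  simp only [qp, poly_mul h, quadPart_mul, cst]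
  rfl

theorem lin_var {x : V} (h : C.gate v = Gate.var x) : lin C v = Pi.single x 1 := by
  funext y
  simp only [lin, poly_var h]
  unfold D1
  rw [MvPolynomial.pderiv_X, Pi.single_apply, Pi.single_apply]
  by_cases hz : x = y
  · rw [if_pos hz, if_pos hz.symm, map_one]
  · rw [if_neg hz, if_neg (fun h' => hz h'.symm), map_zero]

theorem lin_const {c : F} (h : C.gate v = Gate.const c) : lin C v = 0 := by
  funext y
  simp only [lin, poly_const h, D1_C, Pi.zero_apply]

/-- sums over the operands, in any module -/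
theorem sum_co {M : Type*} [AddCommGroup M] [Module F M] (f : V ⊕ Fin C.nodes → M)
    (hf : ∀ u, ¬ Nz C u → f (Sum.inr u) = 0) : ∑ s, co C v s • f s =
      match C.gate v with
      | .var x => f (Sum.inl x)
      | .const _ => 0
      | .add i j => f (Sum.inr (C.up v i)) + f (Sum.inr (C.up v j))
      | .mul i j => cst C (C.up v j) • f (Sum.inr (C.up v i)) +
          cst C (C.up v i) • f (Sum.inr (C.up v j)) := by
  classical
  have key : ∀ (u : Fin C.nodes) (a : F),
      ∑ s : V ⊕ Fin C.nodes, (if s = Sum.inr u ∧ Nz C u then a else 0) • f s =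
        a • f (Sum.inr u) := by
    intro u a
    by_cases hu : Nz C u
    · rw [Finset.sum_eq_single (Sum.inr u)]
      · rw [if_pos ⟨rfl, hu⟩]
      · intro s _ hs
        rw [if_neg fun h => hs h.1, zero_smul]
      · intro h
        exact absurd (mem_univ _) h
    · rw [hf u hu, smul_zero]
      refine sum_eq_zero fun s _ => ?_
      rw [if_neg fun h => hu h.2, zero_smul]
  unfold co
  cases h : C.gate v with
  | var x =>
    simp only
    rw [Finset.sum_eq_single (Sum.inl x)]
    · rw [if_pos rfl, one_smul]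
    · intro s _ hs
      rw [if_neg hs, zero_smul]
    · intro h
      exact absurd (mem_univ _) h
  | const c => simp
  | add i j =>
    simp only [add_smul, sum_add_distrib, key, one_smul]
  | mul i j =>
    simp only [add_smul, sum_add_distrib, key]

theorem co_ne {s : V ⊕ Fin C.nodes} (h : co C v s ≠ 0) :
    (∃ x, C.gate v = Gate.var x ∧ s = Sum.inl x) ∨
    (∃ i j, C.gate v = Gate.add i j ∧ ((s = Sum.inr (C.up v i) ∧ Nz C (C.up v i)) ∨
      (s = Sum.inr (C.up v j) ∧ Nz C (C.up v j)))) ∨
    (∃ i j, C.gate v = Gate.mul i j ∧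
      ((s = Sum.inr (C.up v i) ∧ Nz C (C.up v i) ∧ cst C (C.up v j) ≠ 0) ∨
      (s = Sum.inr (C.up v j) ∧ Nz C (C.up v j) ∧ cst C (C.up v i) ≠ 0))) := by
  classical
  unfold co at h
  cases hg : C.gate v with
  | var x =>
    rw [hg] at h
    left
    refine ⟨x, rfl, ?_⟩
    by_contra hs
    exact h (if_neg hs)
  | const c =>
    rw [hg] at h
    exact absurd rfl h
  | add i j =>
    rw [hg] at h
    right; left
    refine ⟨i, j, rfl, ?_⟩
    by_contra hs
    push Not at hs
    apply h
    change (if s = Sum.inr (C.up v i) ∧ Nz C (C.up v i) then (1 : F) else 0) +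
      (if s = Sum.inr (C.up v j) ∧ Nz C (C.up v j) then 1 else 0) = 0
    rw [if_neg fun h' => hs.1 h'.1 h'.2, if_neg fun h' => hs.2 h'.1 h'.2, add_zero]
  | mul i j =>
    rw [hg] at h
    right; right
    refine ⟨i, j, rfl, ?_⟩
    by_contra hs
    push Not at hs
    apply h
    change (if s = Sum.inr (C.up v i) ∧ Nz C (C.up v i) then cst C (C.up v j) else 0) +
      (if s = Sum.inr (C.up v j) ∧ Nz C (C.up v j) then cst C (C.up v i) else 0) = 0
    have h1 : (if s = Sum.inr (C.up v i) ∧ Nz C (C.up v i) then cst C (C.up v j) else 0) = 0 := by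
      split_ifs with h'
      · exact hs.1 h'.1 h'.2
      · rfl
    have h2 : (if s = Sum.inr (C.up v j) ∧ Nz C (C.up v j) then cst C (C.up v i) else 0) = 0 := by
      split_ifs with h'
      · exact hs.2 h'.1 h'.2
      · rfl
    rw [h1, h2, add_zero]

open Classical in
theorem co_sub (v : Fin C.nodes) : ∃ A : Finset (V ⊕ Fin C.nodes), A.card ≤ 2 ∧
    ∀ s, co C v s ≠ 0 → s ∈ A := by
  cases hg : C.gate v with
  | var x =>
    refine ⟨{Sum.inl x}, by simp, fun s hs => ?_⟩
    rcases co_ne hs with ⟨y, hy, rfl⟩ | ⟨i, j, h, _⟩ | ⟨i, j, h, _⟩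
    · rw [hg] at hy
      cases hy
      exact mem_singleton_self _
    · rw [hg] at h
      cases h
    · rw [hg] at h
      cases h
  | const c =>
    refine ⟨∅, by simp, fun s hs => ?_⟩
    rcases co_ne hs with ⟨y, hy, rfl⟩ | ⟨i, j, h, _⟩ | ⟨i, j, h, _⟩
    · rw [hg] at hy
      cases hy
    · rw [hg] at h
      cases h
    · rw [hg] at h
      cases h
  | add i j =>
    refine ⟨{Sum.inr (C.up v i), Sum.inr (C.up v j)}, card_le_two, fun s hs => ?_⟩
    rw [mem_insert, mem_singleton]
    rcases co_ne hs with ⟨y, hy, rfl⟩ | ⟨i', j', h, h'⟩ | ⟨i', j', h, _⟩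
    · rw [hg] at hy
      cases hy
    · rw [hg] at h
      cases h
      rcases h' with h' | h'
      · exact Or.inl h'.1
      · exact Or.inr h'.1
    · rw [hg] at h
      cases h
  | mul i j =>
    refine ⟨{Sum.inr (C.up v i), Sum.inr (C.up v j)}, card_le_two, fun s hs => ?_⟩
    rw [mem_insert, mem_singleton]
    rcases co_ne hs with ⟨y, hy, rfl⟩ | ⟨i', j', h, _⟩ | ⟨i', j', h, h'⟩
    · rw [hg] at hy
      cases hy
    · rw [hg] at h
      cases h
    · rw [hg] at h
      cases h
      rcases h' with h' | h'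
      · exact Or.inl h'.1
      · exact Or.inr h'.1

theorem inp_mul {i j : Fin (v : ℕ)} (h : C.gate v = Gate.mul i j) :
    inp C v = (C.up v i, C.up v j) := by
  unfold inp
  rw [h]

/-- the program of a circuit -/
noncomputable def prog (C : Circuit F V) : Prg F V (Fin C.nodes) where
  L := lin C
  Q := qp C
  cf := co C
  cf_lt := by
    intro g h hh
    rcases co_ne hh with ⟨y, _, h1⟩ | ⟨i, j, _, h1⟩ | ⟨i, j, _, h1⟩
    · cases h1
    · rcases h1 with h1 | h1
      · rw [Sum.inr_injective h1.1]
        exact up_lt g i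
      · rw [Sum.inr_injective h1.1]
        exact up_lt g j
    · rcases h1 with h1 | h1
      · rw [Sum.inr_injective h1.1]
        exact up_lt g i
      · rw [Sum.inr_injective h1.1]
        exact up_lt g j
  cf_card := by
    classical
    intro g
    obtain ⟨A, hA, hA'⟩ := co_sub (C := C) g
    refine le_trans (card_le_card fun s hs => ?_) hA
    exact hA' s (mem_filter.1 hs).2
  pd := IsProd C
  a v := lin C (inp C v).1
  b v := lin C (inp C v).2
  L_eq := by
    intro v
    rw [sum_co (C := C) (v := v) (vc (lin C)) fun u hu => by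
      unfold Nz at hu
      push Not at hu
      exact hu.1]
    cases hg : C.gate v with
    | var x =>
      simp only
      rw [lin_var hg]
      rfl
    | const c =>
      simp only
      exact lin_const hg
    | add i j =>
      simp only
      exact lin_add' hg
    | mul i j =>
      simp only
      rw [lin_mul' hg, add_comm]
      rfl
  Q_eq := by
    classical
    intro v
    have h1 := sum_co (C := C) (v := v) (Sum.elim (fun _ => (0 : MvPolynomial V F)) (qp C))
      fun u hu => by
        unfold Nz at hu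
        push Not at hu
        exact hu.2
    rw [Fintype.sum_sum_type] at h1
    simp only [Sum.elim_inl, Sum.elim_inr, smul_zero, sum_const_zero, zero_add] at h1
    rw [h1]
    cases hg : C.gate v with
    | var x =>
      simp only
      rw [if_neg, add_zero]
      · rw [qp, poly_var hg, quadPart_X]
      · rintro ⟨i, j, h, _⟩
        rw [hg] at h
        cases h
    | const c =>
      simp only
      rw [if_neg, add_zero]
      · rw [qp, poly_const hg, quadPart_C]
      · rintro ⟨i, j, h, _⟩
        rw [hg] at h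
        cases h
    | add i j =>
      simp only
      rw [if_neg, add_zero]
      · exact qp_add hg
      · rintro ⟨i, j, h, _⟩
        rw [hg] at h
        cases h
    | mul i j =>
      simp only
      rw [qp_mul hg, add_comm (cst C (C.up v i) • qp C (C.up v j)), inp_mul hg]
      congr 1
      by_cases hp : IsProd C v
      · rw [if_pos hp]
      · rw [if_neg hp]
        have h2 : lin C (C.up v i) = 0 ∨ lin C (C.up v j) = 0 := by
          by_contra hcon
          push Not at hcon
          exact hp ⟨i, j, hg, hcon.1, hcon.2⟩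
        rcases h2 with h2 | h2
        · rw [h2, form_zero, zero_mul]
        · rw [h2, form_zero, mul_zero]

theorem prog_L : (prog C).L = lin C := rfl

theorem prog_Q : (prog C).Q = qp C := rfl

theorem two_sub {v : Fin C.nodes} (h : (prog C).Two v) :
    (∃ i j, C.gate v = Gate.add i j) ∨ Affine C v := by
  classical
  obtain ⟨_, h2⟩ := h
  obtain ⟨s, hs⟩ := card_pos.1 (show 0 < ((prog C).all v).card by omega)
  have hs' := (prog C).mem_all.1 hs
  rcases co_ne hs' with ⟨y, hy, rfl⟩ | ⟨i, j, h, _⟩ | ⟨i, j, h, _⟩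
  · exfalso
    -- only one operand
    have h3 : (prog C).all v ⊆ {Sum.inl y} := by
      intro t ht
      rcases co_ne ((prog C).mem_all.1 ht) with ⟨z, hz, rfl⟩ | ⟨i, j, h, _⟩ | ⟨i, j, h, _⟩
      · rw [hy] at hz
        cases hz
        exact mem_singleton_self _
      · rw [hy] at h
        cases h
      · rw [hy] at h
        cases h
    have h4 := card_le_card h3
    rw [card_singleton] at h4
    omega
  · exact Or.inl ⟨i, j, h⟩
  · right
    -- both operands occur
    have h3 : ∀ t ∈ (prog C).all v, (t = Sum.inr (C.up v i) ∧ Nz C (C.up v i) ∧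
        cst C (C.up v j) ≠ 0) ∨ (t = Sum.inr (C.up v j) ∧ Nz C (C.up v j) ∧
        cst C (C.up v i) ≠ 0) := by
      intro t ht
      rcases co_ne ((prog C).mem_all.1 ht) with ⟨z, hz, rfl⟩ | ⟨i', j', h', _⟩ | ⟨i', j', h', h4⟩
      · rw [h] at hz
        cases hz
      · rw [h] at h'
        cases h'
      · rw [h] at h'
        cases h'
        exact h4
    obtain ⟨s₁, s₂, hne, hs12⟩ := card_eq_two.1 h2
    have m1 := h3 s₁ (by rw [hs12]; simp)
    have m2 := h3 s₂ (by rw [hs12]; simp)
    rcases m1 with m1 | m1 <;> rcases m2 with m2 | m2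
    · exact absurd (m1.1.trans m2.1.symm) hne
    · exact ⟨i, j, h, m1.2.1, m2.2.1, Or.inl m2.2.2⟩
    · exact ⟨i, j, h, m2.2.1, m1.2.1, Or.inl m1.2.2⟩
    · exact absurd (m1.1.trans m2.1.symm) hne

theorem mix_sub {v : Fin C.nodes} (h : (prog C).Mix v) : Affine C v := by
  obtain ⟨⟨i, j, hg, hi, hj⟩, h2⟩ := h
  obtain ⟨s, hs⟩ := card_pos.1 (Nat.pos_of_ne_zero h2)
  rcases co_ne ((prog C).mem_all.1 hs) with ⟨y, hy, rfl⟩ | ⟨i', j', h, _⟩ | ⟨i', j', h, h4⟩
  · rw [hg] at hy
    cases hy
  · rw [hg] at h
    cases h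
  · rw [hg] at h
    cases h
    refine ⟨i, j, hg, Or.inl hi, Or.inl hj, ?_⟩
    rcases h4 with h4 | h4
    · exact Or.inr h4.2.2
    · exact Or.inl h4.2.2

theorem canc_sub {v : Fin C.nodes} (h : (prog C).Canc v) : Cancels C v := by
  obtain ⟨h1, h2, h3, s, hs, hs'⟩ := h
  have h2' : lin C v = 0 := h2
  rcases co_ne hs with ⟨y, hy, rfl⟩ | ⟨i, j, hg, h4⟩ | ⟨i, j, hg, h4⟩
  · exfalso
    apply hs'
    rw [lin_var hy] at h2'
    exact h2'
  · rw [lin_add' hg] at h2'
    have hne : lin C (C.up v i) ≠ 0 := by
      rcases h4 with h4 | h4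
      · rw [h4.1] at hs'
        exact hs'
      · rw [h4.1] at hs'
        intro h0
        rw [h0, zero_add] at h2'
        exact hs' h2'
    refine ⟨i, j, hg, hne, fun h0 => hne ?_, h2, h3⟩
    rw [h0, add_zero] at h2'
    exact h2'
  · exfalso
    have hp : lin C (C.up v i) = 0 ∨ lin C (C.up v j) = 0 := by
      by_contra hcon
      push Not at hcon
      exact h1 ⟨i, j, hg, hcon.1, hcon.2⟩
    rw [lin_mul' hg] at h2'
    rcases h4 with h4 | h4
    · rw [h4.1] at hs'
      have hs'' : lin C (C.up v i) ≠ 0 := hs'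
      rw [hp.resolve_left hs'', smul_zero, zero_add] at h2'
      exact hs'' ((smul_eq_zero.1 h2').resolve_left h4.2.2)
    · rw [h4.1] at hs'
      have hs'' : lin C (C.up v j) ≠ 0 := hs'
      rw [hp.resolve_right hs'', smul_zero, add_zero] at h2'
      exact hs'' ((smul_eq_zero.1 h2').resolve_left h4.2.2)

theorem pd_nonscalar {v : Fin C.nodes} (h : IsProd C v) : C.IsNonscalar v := by
  obtain ⟨i, j, hg, hi, hj⟩ := h
  refine ⟨i, j, hg, fun c hc => hi ?_, fun c hc => hj ?_⟩
  · funext x
    simp only [lin, hc, D1_C, Pi.zero_apply]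
  · funext x
    simp only [lin, hc, D1_C, Pi.zero_apply]

theorem reach_gate {v : Fin C.nodes} (h : qp C v ≠ 0) : IsGate C v := by
  cases hg : C.gate v with
  | var x =>
    refine absurd ?_ h
    rw [qp, poly_var hg, quadPart_X]
  | const c =>
    refine absurd ?_ h
    rw [qp, poly_const hg, quadPart_C]
  | add i j => exact Or.inl ⟨i, j, hg⟩
  | mul i j => exact Or.inr ⟨i, j, hg⟩

end Pool.Agent.H706.HC
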