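import Pool.Agent.H706.HC.Point

set_option autoImplicit false

/-!
# The inequality for the quadratic parts
-/

namespace Pool.Agent.H706.HC

open Finset Pool.Agent.H88R3.MM Pool.Agent.W946.Kos Pool.Agent.W946.Sz

variable {F V Gt : Type*} [Field F] [Fintype V] [DecidableEq V] [Fintype Gt] [LinearOrder Gt]

namespace Prg

variable (P : Prg F V Gt)

open Classical in
/-- the used steps -/
noncomputable def UU (outs : Finset Gt) : Finset Gt := univ.filter (P.Reach outs)

open Classical in
/-- the steps used through steps without linear part -/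
noncomputable def U₀ (outs : Finset Gt) : Finset Gt := univ.filter (P.Reach₀ outs)

open Classical in
/-- those of them whose operands have no linear part -/
noncomputable def I₀ (outs : Finset Gt) : Finset Gt :=
  univ.filter fun g => P.Reach₀ outs g ∧ P.Inner g

open Classical in
/-- the others -/
noncomputable def A₀ (outs : Finset Gt) : Finset Gt :=
  univ.filter fun g => P.Reach₀ outs g ∧ ¬ P.Inner g

/-- every nontrivial combination of the output polynomials uses at least `T` products -/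
def Rich (outs : Finset Gt) (T : ℕ) : Prop :=
  ∀ z bar : Gt → F, z ≠ 0 → (∀ e, e ∉ outs → z e = 0) →
    ∑ e, z e • P.Q e = ∑ g, bar g • P.pr g → ∀ A : Finset Gt, (∀ g, bar g ≠ 0 → g ∈ A) → T ≤ A.card

variable {P}

theorem mem_U₀ {outs : Finset Gt} {g : Gt} : g ∈ P.U₀ outs ↔ P.Reach₀ outs g := by
  classical
  unfold U₀
  simp

theorem mem_UU {outs : Finset Gt} {g : Gt} : g ∈ P.UU outs ↔ P.Reach outs g := by
  classical
  unfold UU
  simp

theorem mem_I₀ {outs : Finset Gt} {g : Gt} :
    g ∈ P.I₀ outs ↔ P.Reach₀ outs g ∧ P.Inner g := by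
  classical
  unfold I₀
  simp

theorem mem_A₀ {outs : Finset Gt} {g : Gt} :
    g ∈ P.A₀ outs ↔ P.Reach₀ outs g ∧ ¬ P.Inner g := by
  classical
  unfold A₀
  simp

theorem card_U₀ (outs : Finset Gt) : (P.I₀ outs).card + (P.A₀ outs).card = (P.U₀ outs).card := by
  classical
  rw [← card_union_of_disjoint]
  · congr 1
    ext g
    rw [mem_union, mem_I₀, mem_A₀, mem_U₀]
    tauto
  · rw [Finset.disjoint_left]
    intro g hg hg'
    exact (mem_A₀.1 hg').2 (mem_I₀.1 hg).2

theorem outs_sub (outs : Finset Gt) : outs ⊆ P.U₀ outs := fun _ ho => mem_U₀.2 (reach₀_out ho)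

theorem dist (outs : Finset Gt) {T : ℕ} (hR : P.Rich outs T) :
    Dist P.Hd (P.I₀ outs) (P.U₀ outs \ outs) T := by
  classical
  intro bar hbar hne
  have hsum : ∀ e, ∑ g ∈ P.I₀ outs, P.Hd e g * bar g = ∑ g, P.Hd e g * bar g := by
    intro e
    refine sum_subset (subset_univ _) fun g _ hg => ?_
    rw [hbar.1 g hg, mul_zero]
  set z : Gt → F := fun e => ∑ g, P.Hd e g * bar g with hz
  have hz0 : ∀ e, e ∉ outs → z e = 0 := by
    intro e he
    by_cases heU : e ∈ P.U₀ outs
    · have h1 := hbar.2 e (mem_sdiff.2 ⟨heU, he⟩)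
      rw [hsum] at h1
      exact h1
    · rw [hz]
      beta_reduce
      refine sum_eq_zero fun g _ => ?_
      by_cases hg : g ∈ P.I₀ outs
      · have hgU := (mem_I₀.1 hg).1
        have hge : g ≠ e := by
          rintro rfl
          exact heU (mem_U₀.2 hgU)
        have h0 : P.cq g e = 0 := by
          by_contra h0
          exact heU (mem_U₀.2 (hgU.next (mem_I₀.1 hg).2 h0))
        rw [Hd, if_neg hge, h0, sub_zero, zero_mul]
      · rw [hbar.1 g hg, mul_zero]
  have hzne : z ≠ 0 := by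
    intro h
    exact hne (P.dual_zero fun e => congrFun h e)
  refine hR z bar hzne hz0 (P.dual_identity bar) _ fun g hg => ?_
  unfold spt
  rw [mem_filter]
  refine ⟨?_, hg⟩
  by_contra h
  exact hg (hbar.1 g h)

theorem eqs_le (outs : Finset Gt) (g : Gt) :
    (eqs P.Hd (P.U₀ outs \ outs) g).card ≤ (if g ∈ outs then 0 else 1) + (P.ops g).card := by
  classical
  by_cases hg : g ∈ outs
  · rw [if_pos hg, zero_add]
    refine card_le_card fun e he => ?_
    unfold eqs at he
    rw [mem_filter, mem_sdiff] at he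
    rw [P.mem_ops]
    intro h0
    apply he.2
    rw [Hd, h0, sub_zero, if_neg]
    rintro rfl
    exact he.1.2 hg
  · rw [if_neg hg]
    refine (card_le_card (t := insert g (P.ops g)) fun e he => ?_).trans
      ((card_insert_le _ _).trans (by omega))
    unfold eqs at he
    rw [mem_filter, mem_sdiff] at he
    rw [mem_insert]
    by_cases hge : e = g
    · exact Or.inl hge
    · right
      rw [P.mem_ops]
      intro h0
      apply he.2
      rw [Hd, h0, sub_zero, if_neg fun h => hge h.symm]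

theorem row_ge (outs : Finset Gt) {e : Gt} (he : e ∈ P.U₀ outs \ outs) :
    2 ≤ (row P.Hd (P.I₀ outs) e).card + ind (¬ P.Inner e) := by
  classical
  rw [mem_sdiff, mem_U₀] at he
  obtain ⟨g, hg, hgi, h0⟩ := he.1.user he.2
  have hlt := P.cq_lt h0
  have hgr : g ∈ row P.Hd (P.I₀ outs) e := by
    unfold row
    rw [mem_filter, mem_I₀]
    refine ⟨⟨hg, hgi⟩, ?_⟩
    rw [Hd, if_neg hlt.ne', zero_sub]
    exact neg_ne_zero.2 h0
  by_cases hi : P.Inner e
  · rw [ind_neg (not_not.2 hi), add_zero]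
    have h2 : ({e, g} : Finset Gt) ⊆ row P.Hd (P.I₀ outs) e := by
      intro z hz
      rw [mem_insert, mem_singleton] at hz
      rcases hz with rfl | rfl
      · unfold row
        rw [mem_filter, mem_I₀]
        refine ⟨⟨he.1, hi⟩, ?_⟩
        rw [Hd, if_pos rfl, P.cq_self, sub_zero]
        exact one_ne_zero
      · exact hgr
    rw [← card_pair hlt.ne]
    exact card_le_card h2
  · rw [ind_pos hi]
    have := card_pos.2 ⟨g, hgr⟩
    omega

/-- the first inequality -/
theorem first (outs : Finset Gt) {ε N : ℝ} (hε : 0 < ε) {i r : ℕ}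
    (hi : 1 ≤ i) (hN : N ≤ (1 + ε) ^ i) (hG : ((P.U₀ outs).card : ℝ) ≤ N)
    (hR : P.Rich outs ((1 + 3) ^ r * (4 * i + 3))) :
    r * (((P.I₀ outs).card : ℝ) + 2 * outs.card - 2 * (P.A₀ outs).card -
      (∑ g ∈ P.I₀ outs, (P.ops g).card : ℕ) - ε * N) ≤ N := by
  classical
  set C := P.U₀ outs \ outs with hCdef
  have hCc : C.card + outs.card = (P.U₀ outs).card :=
    card_sdiff_add_card_eq_card (outs_sub outs)
  have hC : (C.card : ℝ) ≤ N := by
    refine le_trans ?_ hG
    exact_mod_cast card_le_card sdiff_subset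
  set w : Gt → ℕ := fun e => (row P.Hd (P.I₀ outs) e).card + ind (¬ P.Inner e) with hw
  have h1 := Pool.Agent.Y624.Pa.rounds' (H := P.Hd) (Δ := 3) hε hi hN w r (P.I₀ outs) C
    (fun e _ => Nat.le_add_right _ _) (fun e he => row_ge outs he) ?_ hC (dist outs hR)
  · have h2 : ∑ e ∈ C, w e ≤ (∑ g ∈ P.I₀ outs, (if g ∈ outs then 0 else 1) +
        ∑ g ∈ P.I₀ outs, (P.ops g).card) + ∑ e ∈ C, ind (¬ P.Inner e) := by
      rw [hw, sum_add_distrib, ← count_inc, ← sum_add_distrib]
      exact Nat.add_le_add_right (sum_le_sum fun g _ => eqs_le outs g) _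
    have h3 : ∑ g ∈ P.I₀ outs, (if g ∈ outs then 0 else 1) + ∑ e ∈ C, ind (¬ P.Inner e) =
        C.card := by
      have e1 : ∑ g ∈ P.I₀ outs, (if g ∈ outs then 0 else 1) =
          ((P.I₀ outs).filter fun g => ¬ g ∈ outs).card := by
        rw [card_filter]
        exact sum_congr rfl fun g _ => by split_ifs <;> simp_all
      have e2 : ∑ e ∈ C, ind (¬ P.Inner e) = (C.filter fun e => ¬ P.Inner e).card := by
        rw [card_filter]
        exact sum_congr rfl fun g _ => by unfold ind; split_ifs <;> rfl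
      rw [e1, e2, ← card_union_of_disjoint]
      · congr 1
        ext g
        rw [mem_union, mem_filter, mem_filter, hCdef, mem_sdiff, mem_I₀, mem_U₀]
        tauto
      · rw [Finset.disjoint_left]
        intro g hg hg'
        exact (mem_filter.1 hg').2 (mem_I₀.1 (mem_filter.1 hg).1).2
    have h4 : ∑ e ∈ C, w e ≤ C.card + ∑ g ∈ P.I₀ outs, (P.ops g).card := by omega
    have h4' : ((∑ e ∈ C, w e : ℕ) : ℝ) ≤ C.card + (∑ g ∈ P.I₀ outs, (P.ops g).card : ℕ) := by
      exact_mod_cast h4
    have h5 := card_U₀ (P := P) outs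
    have h5' : ((P.I₀ outs).card : ℝ) + (P.A₀ outs).card = (P.U₀ outs).card := by exact_mod_cast h5
    have hCc' : (C.card : ℝ) + outs.card = (P.U₀ outs).card := by exact_mod_cast hCc
    have h6 : ((P.I₀ outs).card : ℝ) + 2 * outs.card - 2 * (P.A₀ outs).card -
        (∑ g ∈ P.I₀ outs, (P.ops g).card : ℕ) - ε * N ≤
        3 * ((P.I₀ outs).card : ℝ) - (∑ e ∈ C, w e : ℕ) - C.card - ε * N := by
      linarith
    exact (mul_le_mul_of_nonneg_left h6 (Nat.cast_nonneg r)).trans (h1.trans hC)
  · intro g _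
    refine (eqs_le outs g).trans ?_
    have h2 := P.ops_card_le g
    have h3 := P.all_card g
    split_ifs <;> omega

/-- the second inequality -/
theorem second (outs : Finset Gt) :
    (P.I₀ outs).card + (P.A₀ outs).card ≤ outs.card + ∑ g ∈ P.I₀ outs, (P.ops g).card := by
  classical
  rw [card_U₀]
  have hCc : (P.U₀ outs \ outs).card + outs.card = (P.U₀ outs).card :=
    card_sdiff_add_card_eq_card (outs_sub outs)
  have h1 : P.U₀ outs \ outs ⊆ (P.I₀ outs).biUnion P.ops := by
    intro e he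
    rw [mem_sdiff, mem_U₀] at he
    obtain ⟨g, hg, hgi, h0⟩ := he.1.user he.2
    exact mem_biUnion.2 ⟨g, mem_I₀.2 ⟨hg, hgi⟩, P.mem_ops.2 h0⟩
  have h2 := (card_le_card h1).trans card_biUnion_le
  omega

open Classical in
/-- the third inequality -/
theorem third (outs : Finset Gt) :
    (univ.filter fun g => P.Reach outs g ∧ ¬ P.Reach₀ outs g ∧ P.L g = 0).card ≤
      ∑ g ∈ univ.filter (fun g => P.Reach outs g ∧ ¬ (P.Reach₀ outs g ∧ P.Inner g)),
        (P.ops₀ g).card := by
  refine (card_le_card (t := (univ.filter (fun g => P.Reach outs g ∧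
    ¬ (P.Reach₀ outs g ∧ P.Inner g))).biUnion P.ops₀) fun e he => ?_).trans card_biUnion_le
  rw [mem_filter] at he
  obtain ⟨_, h1, h2, h3⟩ := he
  obtain ⟨g, hg, h0⟩ := h1.user fun ho => h2 (reach₀_out ho)
  rw [mem_biUnion]
  refine ⟨g, ?_, P.mem_ops₀.2 ⟨h0, h3⟩⟩
  rw [mem_filter]
  exact ⟨mem_univ _, hg, fun h => h2 (h.1.next h.2 h0)⟩

omit [LinearOrder Gt] in
theorem sum_ind (p : Gt → Prop) [DecidablePred p] :
    ∑ g, ind (p g) = (univ.filter p).card := by
  rw [card_filter]
  refine sum_congr rfl fun g _ => ?_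
  unfold ind
  split_ifs <;> rfl

omit [LinearOrder Gt] in
theorem sum_ind_mul (p : Gt → Prop) [DecidablePred p] (f : Gt → ℕ) :
    ∑ g, ind (p g) * f g = ∑ g ∈ univ.filter p, f g := by
  rw [sum_filter]
  refine sum_congr rfl fun g _ => ?_
  unfold ind
  split_ifs <;> simp

open Classical in
/-- **The inequality for the quadratic parts.** -/
theorem main (outs : Finset Gt) (hL : ∀ o ∈ outs, P.L o = 0) (hQ : ∀ o ∈ outs, P.Q o ≠ 0)
    {ε N : ℝ} (hε : 0 < ε) {i r : ℕ}
    (hi : 1 ≤ i) (hN : N ≤ (1 + ε) ^ i) (hG : ((P.U₀ outs).card : ℝ) ≤ N)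
    (hR : P.Rich outs ((1 + 3) ^ r * (4 * i + 3))) :
    r * (((univ.filter P.Lead).card : ℝ) + (univ.filter fun g => P.Reach outs g ∧ P.pd g).card +
        2 * outs.card - (univ.filter P.Two).card -
        min ((univ.filter P.Canc).card : ℝ) outs.card - 4 * (univ.filter P.Mix).card - ε * N) ≤
      N := by
  have h1 := first outs hε hi hN hG hR
  have h2 := second (P := P) outs
  have h3 := third (P := P) outs
  have hp := fun g => point (P := P) outs hL hQ g
  have s1 := sum_le_sum fun g (_ : g ∈ univ) => (hp g).1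
  have s2 := sum_le_sum fun g (_ : g ∈ univ) => (hp g).2
  simp only [sum_add_distrib, ← mul_sum, sum_ind, sum_ind_mul] at s1 s2
  have eI : (univ.filter fun g => P.Reach₀ outs g ∧ P.Inner g) = P.I₀ outs := by
    unfold I₀
    congr
  have eA : (univ.filter fun g => P.Reach₀ outs g ∧ ¬ P.Inner g) = P.A₀ outs := by
    unfold A₀
    congr
  rw [eI, eA] at s1 s2
  set ld := (univ.filter P.Lead).card
  set mm := (univ.filter fun g => P.Reach outs g ∧ P.pd g).card
  set tw := (univ.filter P.Two).card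
  set cn := (univ.filter P.Canc).card
  set mx := (univ.filter P.Mix).card
  set zz := (univ.filter fun g => P.Reach outs g ∧ ¬ P.Reach₀ outs g ∧ P.L g = 0).card
  set o0 := ∑ g ∈ univ.filter (fun g => P.Reach outs g ∧ ¬ (P.Reach₀ outs g ∧ P.Inner g)),
        (P.ops₀ g).card
  set oI := ∑ g ∈ P.I₀ outs, (P.ops g).card
  set II := (P.I₀ outs).card
  set AA := (P.A₀ outs).card
  have t1 : ld + mm + AA + oI ≤ tw + 4 * mx + II := by omega
  have t2 : ld + mm + 2 * AA + oI ≤ tw + cn + 4 * mx + II := by omega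
  have t1' : (ld : ℝ) + mm + AA + oI ≤ tw + 4 * mx + II := by exact_mod_cast t1
  have t2' : (ld : ℝ) + mm + 2 * AA + oI ≤ tw + cn + 4 * mx + II := by exact_mod_cast t2
  have h2' : (II : ℝ) + AA ≤ outs.card + oI := by exact_mod_cast h2
  have hr : (0 : ℝ) ≤ r := Nat.cast_nonneg r
  have hN0 : 0 ≤ N := le_trans (Nat.cast_nonneg _) hG
  rcases le_total (cn : ℝ) outs.card with hc | hc
  · rw [min_eq_left hc]
    refine le_trans (mul_le_mul_of_nonneg_left ?_ hr) h1
    linarith
  · rw [min_eq_right hc]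
    -- two thirds of the first and one third of the second inequality
    have h4 : (r : ℝ) * ((2 / 3) * ((II : ℝ) + 2 * outs.card - 2 * AA - oI - ε * N)) ≤ N := by
      have h5 : (r : ℝ) * ((2 / 3) * ((II : ℝ) + 2 * outs.card - 2 * AA - oI - ε * N)) =
          (2 / 3) * (r * ((II : ℝ) + 2 * outs.card - 2 * AA - oI - ε * N)) := by ring
      rw [h5]
      linarith
    refine le_trans (mul_le_mul_of_nonneg_left ?_ hr) h4
    have hεN : 0 ≤ ε * N := mul_nonneg hε.le hN0
    linarith

end Prg

end Pool.Agent.H706.HC
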