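import Pool.Graph.R_seed8.W946.SzFin
import Pool.Graph.R_seed8.Y624.PaRounds

set_option autoImplicit false

/-!
# The quadratic part of a polynomial
-/

namespace Pool.Agent.H706.HC

open Finset Pool.Agent.H88R3.MM Pool.Agent.W946.Kos

section general

variable {F V : Type*} [Field F]

/-- the polynomial `P (T X)` as a polynomial in `T` -/
noncomputable def scale : MvPolynomial V F →ₐ[F] Polynomial (MvPolynomial V F) :=
  MvPolynomial.aeval fun x => Polynomial.C (MvPolynomial.X x) * Polynomial.X

/-- the quadratic part -/
noncomputable def quadPart (P : MvPolynomial V F) : MvPolynomial V F := (scale P).coeff 2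

/-- the linear part -/
noncomputable def linPart (P : MvPolynomial V F) : MvPolynomial V F := (scale P).coeff 1

theorem scale_C (c : F) : scale (V := V) (MvPolynomial.C c) =
    Polynomial.C (MvPolynomial.C c) := by
  unfold scale
  rw [MvPolynomial.aeval_C]
  rfl

theorem scale_X (x : V) : scale (F := F) (MvPolynomial.X x) =
    Polynomial.C (MvPolynomial.X x) * Polynomial.X := by
  unfold scale
  rw [MvPolynomial.aeval_X]

theorem scale_zero (P : MvPolynomial V F) :
    (scale P).coeff 0 = MvPolynomial.C (MvPolynomial.constantCoeff P) := by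
  induction P using MvPolynomial.induction_on with
  | C a => rw [scale_C, Polynomial.coeff_C_zero, MvPolynomial.constantCoeff_C]
  | add p q hp hq => rw [map_add, Polynomial.coeff_add, hp, hq, map_add, map_add]
  | mul_X p i hp =>
    rw [map_mul, Polynomial.mul_coeff_zero, hp, scale_X, Polynomial.mul_coeff_zero,
      Polynomial.coeff_X_zero, mul_zero, mul_zero, map_mul, MvPolynomial.constantCoeff_X, mul_zero,
      map_zero]

/-- the linear form with the given coefficients -/
noncomputable def form [Fintype V] (a : V → F) : MvPolynomial V F :=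
  ∑ x, MvPolynomial.C (a x) * MvPolynomial.X x

theorem form_hom [Fintype V] (a : V → F) : (form a).IsHomogeneous 1 := by
  unfold form
  refine MvPolynomial.IsHomogeneous.sum _ _ _ fun x _ => ?_
  have := (MvPolynomial.isHomogeneous_C V (a x)).mul (MvPolynomial.isHomogeneous_X F x)
  rwa [zero_add] at this

theorem form_zero [Fintype V] : form (0 : V → F) = 0 := by
  unfold form
  simp

theorem form_add [Fintype V] (a b : V → F) : form (a + b) = form a + form b := by
  unfold form
  rw [← sum_add_distrib]
  exact sum_congr rfl fun x _ => by rw [Pi.add_apply, map_add, add_mul]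

theorem linPart_eq [Fintype V] (P : MvPolynomial V F) :
    linPart P = form fun x => D1 x P := by
  classical
  unfold linPart
  induction P using MvPolynomial.induction_on with
  | C a =>
    rw [scale_C, Polynomial.coeff_C_of_ne_zero one_ne_zero]
    simp only [D1_C]
    exact form_zero.symm
  | add p q hp hq =>
    rw [map_add, Polynomial.coeff_add, hp, hq, ← form_add]
    congr 1
    funext x
    rw [D1_add, Pi.add_apply]
  | mul_X p i hp =>
    rw [map_mul, scale_X, ← mul_assoc, Polynomial.coeff_mul_X, Polynomial.coeff_mul_C, scale_zero]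
    unfold form
    have h1 : ∀ x : V, D1 x (p * MvPolynomial.X i) =
        if x = i then MvPolynomial.constantCoeff p else 0 := by
      intro x
      rw [D1_mul, MvPolynomial.constantCoeff_X, zero_mul, add_zero]
      unfold D1
      rw [MvPolynomial.pderiv_X, Pi.single_apply]
      by_cases h : i = x
      · rw [if_pos h, if_pos h.symm, map_one, mul_one]
      · rw [if_neg h, if_neg (fun h' => h h'.symm), map_zero, mul_zero]
    simp only [h1]
    rw [Finset.sum_eq_single i]
    · rw [if_pos rfl]
    · intro x _ hx
      rw [if_neg hx, map_zero, zero_mul]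
    · intro h
      exact absurd (mem_univ _) h

theorem quadPart_add (P Q : MvPolynomial V F) :
    quadPart (P + Q) = quadPart P + quadPart Q := by
  unfold quadPart
  rw [map_add, Polynomial.coeff_add]

theorem quadPart_sum {ι : Type*} (s : Finset ι) (P : ι → MvPolynomial V F) :
    quadPart (∑ i ∈ s, P i) = ∑ i ∈ s, quadPart (P i) := by
  unfold quadPart
  rw [map_sum, Polynomial.finsetSum_coeff]

theorem quadPart_C (c : F) : quadPart (MvPolynomial.C c : MvPolynomial V F) = 0 := by
  unfold quadPart
  rw [scale_C, Polynomial.coeff_C_of_ne_zero (by norm_num)]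

theorem quadPart_X (x : V) : quadPart (MvPolynomial.X x : MvPolynomial V F) = 0 := by
  unfold quadPart
  rw [scale_X, Polynomial.coeff_C_mul, Polynomial.coeff_X_of_ne_one (by norm_num), mul_zero]

theorem quadPart_mul [Fintype V] (P Q : MvPolynomial V F) :
    quadPart (P * Q) = MvPolynomial.constantCoeff P • quadPart Q +
      MvPolynomial.constantCoeff Q • quadPart P + form (fun x => D1 x P) * form fun x => D1 x Q := by
  unfold quadPart
  rw [map_mul, Polynomial.coeff_mul, Finset.Nat.antidiagonal_succ, Finset.sum_cons,
    Finset.sum_map, Finset.Nat.antidiagonal_succ, Finset.sum_cons, Finset.sum_map,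
    Finset.Nat.antidiagonal_zero, Finset.sum_singleton]
  simp only [Function.Embedding.prodMap, Function.Embedding.coeFn_mk, Prod.map,
    Function.Embedding.refl_apply, Nat.succ_eq_add_one, zero_add]
  rw [scale_zero, scale_zero, ← linPart_eq, ← linPart_eq, MvPolynomial.smul_eq_C_mul,
    MvPolynomial.smul_eq_C_mul]
  unfold linPart
  norm_num
  ring

end general

section mm

variable {F : Type*} [Field F] {m : ℕ}

theorem quadPart_entry (i j : Fin m) : quadPart (entry F m i j) = entry F m i j := by
  unfold entry
  rw [quadPart_sum]
  refine sum_congr rfl fun k _ => ?_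
  unfold quadPart
  rw [map_mul, scale_X, scale_X]
  have : (Polynomial.C (MvPolynomial.X (Sum.inl (i, k)) : MvPolynomial (Vars m) F) *
      Polynomial.X * (Polynomial.C (MvPolynomial.X (Sum.inr (k, j))) * Polynomial.X)) =
      Polynomial.C (MvPolynomial.X (Sum.inl (i, k)) * MvPolynomial.X (Sum.inr (k, j))) *
        Polynomial.X ^ 2 := by
    rw [Polynomial.C_mul]
    ring
  rw [this, Polynomial.coeff_C_mul, Polynomial.coeff_X_pow, if_pos rfl, mul_one]

theorem D1_form {V : Type*} [Fintype V] (x : V) (a : V → F) : D1 x (form a) = a x := by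
  classical
  unfold D1 form
  rw [map_sum, map_sum, Finset.sum_eq_single x]
  · rw [MvPolynomial.pderiv_C_mul, MvPolynomial.pderiv_X_self, mul_one]
    simp
  · intro y _ hy
    rw [MvPolynomial.pderiv_C_mul, MvPolynomial.pderiv_X_of_ne hy]
    simp
  · intro h
    exact absurd (mem_univ _) h

theorem const_form {V : Type*} [Fintype V] (a : V → F) :
    MvPolynomial.constantCoeff (form a) = 0 := by
  unfold form
  rw [map_sum]
  refine sum_eq_zero fun x _ => ?_
  rw [map_mul, MvPolynomial.constantCoeff_X, mul_zero]

theorem D2_form {V : Type*} [Fintype V] (x y : V) (a b : V → F) :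
    D2 x y (form a * form b) = a x * b y + a y * b x := by
  rw [D2_mul, const_form, const_form, zero_mul, zero_mul, zero_add, zero_add, D1_form, D1_form,
    D1_form, D1_form]

theorem D2_smul {V : Type*} (x y : V) (c : F) (P : MvPolynomial V F) :
    D2 x y (c • P) = c * D2 x y P := by
  unfold D2
  rw [Derivation.map_smul, Derivation.map_smul, MvPolynomial.smul_eq_C_mul, map_mul,
    MvPolynomial.constantCoeff_C]

end mm

end Pool.Agent.H706.HC
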