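import Pool.Agent.H706.HC.Rich

set_option autoImplicit false

/-!
# The lower bound for the number of products
-/

namespace Pool.Agent.H706.HC

open Finset Pool.Agent.H88R3.MM Pool.Agent.W946.Kos

theorem const_hom {F V : Type*} [Field F] {p : MvPolynomial V F} (h : p.IsHomogeneous 1) :
    MvPolynomial.constantCoeff p = 0 := by
  rw [MvPolynomial.constantCoeff_eq]
  exact h.coeff_eq_zero (by simp)

open Classical in
theorem isQuad_of {F K : Type*} [Field F] [Field K] (f : F →+* K) {m t : ℕ}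
    {a b : Fin t → MvPolynomial (Vars m) F} (ha : ∀ s, (a s).IsHomogeneous 1)
    (hb : ∀ s, (b s).IsHomogeneous 1) {c : Fin m → Fin m → Fin t → F}
    (hc : ∀ i j, ∑ s, c i j s • (a s * b s) = entry F m i j) :
    IsQuad (K := K) (L := Fin t) (fun s x => f (D1 x (a s))) (fun s x => f (D1 x (b s)))
      (fun s => Matrix.of fun i j => f (c i j s)) := by
  intro G
  ext x y
  rw [symM_expand, Matrix.sum_apply]
  have h1 : ∀ i j, symM (Matrix.single i j (1 : K)) x y = ∑ s, f (c i j s) *
      (f (D1 x (a s)) * f (D1 y (b s)) + f (D1 y (a s)) * f (D1 x (b s))) := by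
    intro i j
    rw [← symM_map f, ← D2_entry, ← hc i j, D2_sum, map_sum]
    refine sum_congr rfl fun s _ => ?_
    rw [D2_smul, D2_mul, const_hom (ha s), const_hom (hb s), zero_mul, zero_mul, zero_add,
      zero_add]
    simp only [map_mul, map_add]
  simp only [h1, mul_sum]
  have h2 : ∀ s : Fin t, (pr G (Matrix.of fun i j => f (c i j s)) •
      (Matrix.vecMulVec (fun x => f (D1 x (a s))) (fun x => f (D1 x (b s))) +
        Matrix.vecMulVec (fun x => f (D1 x (b s))) (fun x => f (D1 x (a s))))) x y =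
      ∑ i, ∑ j, G i j * (f (c i j s) *
        (f (D1 x (a s)) * f (D1 y (b s)) + f (D1 y (a s)) * f (D1 x (b s)))) := by
    intro s
    rw [Matrix.smul_apply, Matrix.add_apply, Matrix.vecMulVec_apply, Matrix.vecMulVec_apply,
      smul_eq_mul]
    unfold pr
    rw [sum_mul]
    refine sum_congr rfl fun i _ => ?_
    rw [sum_mul]
    refine sum_congr rfl fun j _ => ?_
    rw [Matrix.of_apply]
    ring
  simp only [h2]
  have h3 : ∀ i : Fin m, (∑ j, ∑ s, G i j * (f (c i j s) *
        (f (D1 x (a s)) * f (D1 y (b s)) + f (D1 y (a s)) * f (D1 x (b s))))) =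
      ∑ s : Fin t, ∑ j, G i j * (f (c i j s) *
        (f (D1 x (a s)) * f (D1 y (b s)) + f (D1 y (a s)) * f (D1 x (b s)))) :=
    fun i => sum_comm
  rw [sum_congr rfl fun i _ => h3 i, sum_comm]

open Classical in
theorem suffice_bound {F : Type*} [Field F] {m t : ℕ} (h : Suffice F m t) (q p : ℕ)
    (hqp : q * (p + 1) ≤ m) :
    m ^ 2 + (2 * p + 1) * m * q ≤ t + q * (p + 1) * (2 * p + 1).choose p := by
  obtain ⟨a, b, ha, hb, hs⟩ := h
  have h1 : ∀ i j, ∃ c : Fin t → F, ∑ s, c s • (a s * b s) = entry F m i j := by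
    intro i j
    have := hs i j
    rwa [Submodule.mem_span_range_iff_exists_fun] at this
  choose c hc using h1
  have h4 := core (isQuad_of (algebraMap F (AlgebraicClosure F)) ha hb hc) q p hqp
  rwa [Fintype.card_fin] at h4

/-- the school method -/
theorem exists_suffice (F : Type*) [Field F] (m : ℕ) : ∃ t, Suffice F m t := by
  classical
  set e := Fintype.equivFin (Fin m × Fin m × Fin m)
  refine ⟨_, fun s => MvPolynomial.X (Sum.inl ((e.symm s).1, (e.symm s).2.1)),
    fun s => MvPolynomial.X (Sum.inr ((e.symm s).2.1, (e.symm s).2.2)),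
    fun s => MvPolynomial.isHomogeneous_X _ _, fun s => MvPolynomial.isHomogeneous_X _ _,
    fun i j => ?_⟩
  unfold entry
  refine Submodule.sum_mem _ fun k _ => Submodule.subset_span ⟨e (i, k, j), ?_⟩
  simp

theorem quad_mem (F : Type*) [Field F] (m : ℕ) : Suffice F m (quad F m) :=
  Nat.sInf_mem (s := {t | Suffice F m t}) (exists_suffice F m)

universe u

theorem quad_lower (δ : ℝ) (hδ : 0 < δ) : ∃ m₀ : ℕ, ∀ (F : Type u) [Field F] (m : ℕ),
    m₀ ≤ m → (3 - δ) * (m : ℝ) ^ 2 ≤ quad F m := by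
  obtain ⟨m₀, h⟩ := Pool.Agent.Y624.Pa.three_bound δ hδ
  exact ⟨m₀, fun F _ m hm => h m (quad F m) hm fun q p hqp =>
    suffice_bound (quad_mem F m) q p hqp⟩

end Pool.Agent.H706.HC
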