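import Pool.Agent.H706.HC.Circ
import Pool.Agent.H706.HC.Quad

set_option autoImplicit false
set_option linter.unusedSectionVars false

/-!
# The homogeneous parts and the gates which are counted
-/

namespace Pool.Agent.H706.HC

open Finset Pool.Agent.H88R3.MM Pool.Agent.W946.Kos Pool.Agent.W946.Sz Pool.Agent.H522R2
  Pool.Agent.H522R2.Circuit

section parts

variable {F V : Type*} [Field F]

theorem scale_monomial (d : V →₀ ℕ) (a : F) : scale (MvPolynomial.monomial d a) =
    Polynomial.C (MvPolynomial.monomial d a) * Polynomial.X ^ d.degree := by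
  classical
  unfold scale
  rw [MvPolynomial.aeval_monomial]
  have h1 : (d.prod fun i k => (Polynomial.C (MvPolynomial.X i : MvPolynomial V F) *
      Polynomial.X) ^ k) = Polynomial.C (d.prod fun i k => (MvPolynomial.X i) ^ k) *
        Polynomial.X ^ d.degree := by
    simp only [Finsupp.prod, mul_pow, prod_mul_distrib, Finset.prod_pow_eq_pow_sum, map_prod,
      map_pow]
    rfl
  rw [h1, MvPolynomial.monomial_eq, Polynomial.C_mul, mul_assoc]
  rfl

/-- the coefficients of `P (T X)` are the homogeneous parts. -/
theorem scale_coeff (k : ℕ) (P : MvPolynomial V F) :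
    (scale P).coeff k = MvPolynomial.homogeneousComponent k P := by
  classical
  induction P using MvPolynomial.induction_on' with
  | monomial d a =>
    rw [scale_monomial, Polynomial.coeff_C_mul, Polynomial.coeff_X_pow]
    have h1 := MvPolynomial.homogeneousComponent_of_mem (m := k)
      (MvPolynomial.isHomogeneous_monomial (R := F) (n := d.degree) a rfl)
    rw [h1]
    by_cases h : k = d.degree
    · rw [if_pos h, if_pos h, mul_one]
    · rw [if_neg h, if_neg h, mul_zero]
  | add p q hp hq => rw [map_add, Polynomial.coeff_add, hp, hq, map_add]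

end parts

section circuits

variable {F V : Type*} [Field F]

/-- the polynomial has a nonzero part of degree `k` -/
def Has (k : ℕ) (P : MvPolynomial V F) : Prop := MvPolynomial.homogeneousComponent k P ≠ 0

/-- the number of `+` gates -/
noncomputable def addCount (C : Circuit F V) : ℕ :=
  Nat.card {v : Fin C.nodes // ∃ i j, C.gate v = Gate.add i j}

/-- The number of the `+` gates at which linear parts cancel: the polynomials at both inputs have
a nonzero linear part, and the sum has no linear part but a nonzero quadratic part. -/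
noncomputable def cancelCount (C : Circuit F V) : ℕ :=
  Nat.card {v : Fin C.nodes // ∃ i j, C.gate v = Gate.add i j ∧ Has 1 (C.poly (C.up v i)) ∧
    Has 1 (C.poly (C.up v j)) ∧ ¬ Has 1 (C.poly v) ∧ Has 2 (C.poly v)}

/-- The number of the `×` gates at which an affine polynomial is multiplied: both factors have a
nonzero part of degree `1` or `2`, and one of them has a nonzero constant term. -/
noncomputable def affineCount (C : Circuit F V) : ℕ :=
  Nat.card {v : Fin C.nodes // ∃ i j, C.gate v = Gate.mul i j ∧
    (Has 1 (C.poly (C.up v i)) ∨ Has 2 (C.poly (C.up v i))) ∧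
    (Has 1 (C.poly (C.up v j)) ∨ Has 2 (C.poly (C.up v j))) ∧
    (Has 0 (C.poly (C.up v i)) ∨ Has 0 (C.poly (C.up v j)))}

theorem has_zero (P : MvPolynomial V F) :
    Has 0 P ↔ MvPolynomial.constantCoeff P ≠ 0 := by
  unfold Has
  rw [MvPolynomial.homogeneousComponent_zero, MvPolynomial.constantCoeff_eq]
  exact not_congr (map_eq_zero_iff _ (MvPolynomial.C_injective V F))

theorem has_one [Fintype V] (P : MvPolynomial V F) :
    Has 1 P ↔ (fun x => D1 x P) ≠ 0 := by
  unfold Has
  rw [← scale_coeff]
  change linPart P ≠ 0 ↔ _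
  rw [linPart_eq]
  refine not_congr ⟨fun h => ?_, fun h => ?_⟩
  · funext x
    have h1 := congrArg (D1 x) h
    rw [D1_form] at h1
    rw [h1]
    unfold D1
    simp
  · rw [h]
    exact form_zero

theorem has_two (P : MvPolynomial V F) : Has 2 P ↔ quadPart P ≠ 0 := by
  unfold Has
  rw [← scale_coeff]
  rfl

variable [Fintype V] [DecidableEq V] {C : Circuit F V}

theorem nz_iff (v : Fin C.nodes) : Nz C v ↔ Has 1 (C.poly v) ∨ Has 2 (C.poly v) := by
  rw [has_one, has_two]
  rfl

theorem cst_iff (v : Fin C.nodes) : cst C v ≠ 0 ↔ Has 0 (C.poly v) := by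
  rw [has_zero]
  rfl

open Classical in
theorem card_le_natCard {ι : Type*} [Fintype ι] (p q : ι → Prop) (h : ∀ i, p i → q i) :
    (univ.filter p).card ≤ Nat.card {i // q i} := by
  rw [Nat.card_eq_fintype_card, Fintype.card_subtype]
  exact card_le_card fun i hi => mem_filter.2 ⟨mem_univ _, h i (mem_filter.1 hi).2⟩

open Classical in
/-- the sums and the inhomogeneous products -/
theorem two_mix (C : Circuit F V) : (univ.filter (prog C).Two).card +
    4 * (univ.filter (prog C).Mix).card ≤ addCount C + 4 * affineCount C := by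
  have h1 : (univ.filter (prog C).Two).card ≤
      (univ.filter fun v : Fin C.nodes => ∃ i j, C.gate v = Gate.add i j).card +
        (univ.filter fun v => (prog C).Two v ∧ Affine C v).card := by
    refine (card_le_card fun v hv => ?_).trans (card_union_le _ _)
    rw [mem_filter] at hv
    rw [mem_union, mem_filter, mem_filter]
    rcases two_sub hv.2 with h | h
    · exact Or.inl ⟨mem_univ _, h⟩
    · exact Or.inr ⟨mem_univ _, hv.2, h⟩
  have h2 : (univ.filter fun v => (prog C).Two v ∧ Affine C v).card +
      (univ.filter (prog C).Mix).card ≤ (univ.filter fun v => Affine C v).card := by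
    rw [← card_union_of_disjoint]
    · refine card_le_card fun v hv => ?_
      rw [mem_union, mem_filter, mem_filter] at hv
      rw [mem_filter]
      rcases hv with h | h
      · exact ⟨mem_univ _, h.2.2⟩
      · exact ⟨mem_univ _, mix_sub h.2⟩
    · rw [Finset.disjoint_left]
      intro v hv hv'
      exact (mem_filter.1 hv).2.1.1 (mem_filter.1 hv').2.1
  have h3 : (univ.filter fun v => Affine C v).card ≤ affineCount C := by
    refine card_le_natCard _ _ fun v hv => ?_
    obtain ⟨i, j, hg, hi, hj, hc⟩ := hv
    refine ⟨i, j, hg, (nz_iff _).1 hi, (nz_iff _).1 hj, ?_⟩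
    rw [cst_iff, cst_iff] at hc
    exact hc
  have h4 : (univ.filter fun v : Fin C.nodes => ∃ i j, C.gate v = Gate.add i j).card ≤
      addCount C := by
    have h5 := card_le_natCard (fun v : Fin C.nodes => ∃ i j, C.gate v = Gate.add i j)
      (fun v : Fin C.nodes => ∃ i j, C.gate v = Gate.add i j) fun _ h => h
    unfold addCount
    convert h5
  omega

open Classical in
theorem canc_le (C : Circuit F V) : (univ.filter (prog C).Canc).card ≤ cancelCount C := by
  refine card_le_natCard _ _ fun v hv => ?_
  obtain ⟨i, j, hg, hi, hj, h1, h2⟩ := canc_sub hv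
  refine ⟨i, j, hg, (has_one _).2 hi, (has_one _).2 hj, ?_, (has_two _).2 h2⟩
  rw [has_one]
  exact not_not.2 h1

open Classical in
theorem U₀_le (C : Circuit F V) (O : Finset (Fin C.nodes)) (hO : ∀ v ∈ O, qp C v ≠ 0) :
    ((prog C).U₀ O).card ≤ C.size := by
  unfold size Prg.U₀
  refine card_le_natCard _ _ fun v hv => ?_
  exact reach_gate (Prg.Reach.quad (P := prog C) hO hv.reach)

/-- in a homogeneous circuit no linear parts cancel where a quadratic part is left. -/
theorem cancelCount_zero (C : Circuit F V)
    (h : ∀ v, ∃ n, (C.poly v).IsHomogeneous n) : cancelCount C = 0 := by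
  unfold cancelCount
  rw [Nat.card_eq_zero]
  left
  refine ⟨fun ⟨v, i, j, hg, h1, h2, h3, h4⟩ => h4 ?_⟩
  have key : ∀ (P : MvPolynomial V F) (n k : ℕ), P.IsHomogeneous n → Has k P → n = k := by
    intro P n k hn hk
    by_contra hne
    apply hk
    rw [MvPolynomial.homogeneousComponent_of_mem hn, if_neg fun h => hne h.symm]
  obtain ⟨n, hn⟩ := h (C.up v i)
  obtain ⟨n', hn'⟩ := h (C.up v j)
  have e1 := key _ _ _ hn h1
  have e2 := key _ _ _ hn' h2
  subst e1
  subst e2
  rw [poly_add hg, MvPolynomial.homogeneousComponent_of_mem (hn.add hn'), if_neg (by norm_num)]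

/-- in a homogeneous circuit all products are homogeneous. -/
theorem affineCount_zero (C : Circuit F V)
    (h : ∀ v, Has 0 (C.poly v) → ∃ c, C.poly v = MvPolynomial.C c) : affineCount C = 0 := by
  unfold affineCount
  rw [Nat.card_eq_zero]
  left
  have key : ∀ v, Has 0 (C.poly v) → ¬ (Has 1 (C.poly v) ∨ Has 2 (C.poly v)) := by
    intro v hv
    obtain ⟨c, hc⟩ := h v hv
    rw [hc, has_two, quadPart_C, has_one]
    simp only [D1_C, ne_eq, not_true_eq_false, or_false, not_not]
    rfl
  refine ⟨fun ⟨v, i, j, _, h1, h2, h3⟩ => ?_⟩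
  rcases h3 with h3 | h3
  · exact key _ h3 h1
  · exact key _ h3 h2

theorem const_of_hom (C : Circuit F V) (h : ∀ v, ∃ n, (C.poly v).IsHomogeneous n)
    (v : Fin C.nodes) (hv : Has 0 (C.poly v)) : ∃ c, C.poly v = MvPolynomial.C c := by
  obtain ⟨n, hn⟩ := h v
  have h0 : n = 0 := by
    by_contra hne
    apply hv
    rw [MvPolynomial.homogeneousComponent_of_mem hn, if_neg fun h => hne h.symm]
  subst h0
  refine ⟨(C.poly v).coeff 0, ?_⟩
  have h1 := MvPolynomial.homogeneousComponent_zero (C.poly v)
  rw [MvPolynomial.homogeneousComponent_of_mem hn, if_pos rfl] at h1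
  exact h1

end circuits

end Pool.Agent.H706.HC
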