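import Pool.Agent.H706.HC.Prog

set_option autoImplicit false

/-!
# The inequality for every step
-/

namespace Pool.Agent.H706.HC

open Finset Pool.Agent.H88R3.MM Pool.Agent.W946.Kos Pool.Agent.W946.Sz

variable {F V Gt : Type*} [Field F] [Fintype V] [DecidableEq V] [Fintype Gt] [LinearOrder Gt]

namespace Prg

variable (P : Prg F V Gt)

open Classical in
/-- the operands with quadratic part `≠ 0` and linear part `0` -/
noncomputable def ops₀ (g : Gt) : Finset Gt := (P.ops g).filter fun h => P.L h = 0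

/-- the linear part is not zero and not proportional to a variable or to an earlier linear part -/
def Lead (g : Gt) : Prop :=
  P.L g ≠ 0 ∧ (∀ (x : V) (a : F), P.L g ≠ a • (Pi.single x 1 : V → F)) ∧
    ∀ u < g, ∀ a : F, P.L g ≠ a • P.L u

/-- nonzero linear parts cancel -/
def Canc (g : Gt) : Prop :=
  ¬ P.pd g ∧ P.L g = 0 ∧ P.Q g ≠ 0 ∧ ∃ s, P.cf g s ≠ 0 ∧ vc P.L s ≠ 0

/-- a sum of two -/
def Two (g : Gt) : Prop := ¬ P.pd g ∧ (P.all g).card = 2

/-- a product to which something is added -/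
def Mix (g : Gt) : Prop := P.pd g ∧ (P.all g).card ≠ 0

variable {P}

theorem L_of_sub {g : Gt} (t : V ⊕ Gt) (h : ∀ s ∈ P.all g, s ≠ t → vc P.L s = 0) :
    P.L g = P.cf g t • vc P.L t := by
  rw [P.L_eq g]
  refine Finset.sum_eq_single t (fun s _ hs => ?_) fun h => absurd (mem_univ _) h
  by_cases h0 : P.cf g s = 0
  · rw [h0, zero_smul]
  · rw [h s (P.mem_all.2 h0) hs, smul_zero]

theorem L_of_all {g : Gt} (h : ∀ s ∈ P.all g, vc P.L s = 0) : P.L g = 0 := by
  rw [P.L_eq g]
  refine sum_eq_zero fun s _ => ?_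
  by_cases h0 : P.cf g s = 0
  · rw [h0, zero_smul]
  · rw [h s (P.mem_all.2 h0), smul_zero]

theorem L_of_card {g : Gt} (h : (P.all g).card = 0) : P.L g = 0 := by
  refine L_of_all fun s hs => ?_
  rw [card_eq_zero.1 h] at hs
  exact absurd hs (notMem_empty s)

theorem Q_of_card {g : Gt} (h : (P.all g).card = 0) (hp : ¬ P.pd g) : P.Q g = 0 := by
  rw [P.Q_eq g, if_neg hp, add_zero]
  refine sum_eq_zero fun k _ => ?_
  by_cases h0 : P.cf g (Sum.inr k) = 0
  · rw [h0, zero_smul]
  · have := P.mem_all.2 h0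
    rw [card_eq_zero.1 h] at this
    exact absurd this (notMem_empty _)

theorem not_lead_of {g : Gt} {t : V ⊕ Gt} (ht : P.cf g t ≠ 0)
    (h : P.L g = P.cf g t • vc P.L t) : ¬ P.Lead g := by
  intro hl
  rcases t with x | u
  · exact hl.2.1 x _ h
  · exact hl.2.2 u (P.cf_lt g u ht) _ h

theorem not_lead_of_card {g : Gt} (h : (P.all g).card ≤ 1) : ¬ P.Lead g := by
  intro hl
  rcases Nat.lt_or_ge (P.all g).card 1 with h1 | h1
  · exact hl.1 (L_of_card (by omega))
  · obtain ⟨t, ht⟩ := card_eq_one.1 (show (P.all g).card = 1 by omega)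
    have htm : t ∈ P.all g := by rw [ht]; exact mem_singleton_self t
    refine not_lead_of (P.mem_all.1 htm) (L_of_sub t fun s hs hne => ?_) hl
    rw [ht, mem_singleton] at hs
    exact absurd hs hne

theorem ops₀_le (g : Gt) : (P.ops₀ g).card ≤ (P.ops g).card := by
  classical
  exact card_le_card (filter_subset _ _)

theorem mem_ops₀ {g h : Gt} : h ∈ P.ops₀ g ↔ P.cq g h ≠ 0 ∧ P.L h = 0 := by
  classical
  unfold ops₀
  rw [mem_filter, P.mem_ops]

theorem ops₀_lt {g : Gt} (h : ¬ P.Inner g) : (P.ops₀ g).card + 1 ≤ (P.ops g).card := by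
  classical
  unfold Inner at h
  push Not at h
  obtain ⟨k, hk, hk'⟩ := h
  refine card_lt_card ⟨?_, fun hsub => hk' ?_⟩
  · exact filter_subset _ _
  · exact (P.mem_ops₀.1 (hsub (P.mem_ops.2 hk))).2

theorem inner_of_card {g : Gt} (h : (P.all g).card = 0) : P.Inner g := by
  intro k hk
  have := P.inr_mem_all (P.mem_ops.2 hk)
  rw [card_eq_zero.1 h] at this
  exact absurd this (notMem_empty _)

/-- if an operand has no linear part then the linear part is given by the other one. -/
theorem other {g k : Gt} (hk : k ∈ P.ops₀ g) :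
    P.L g = 0 ∨ ∃ t ∈ P.all g, t ≠ Sum.inr k ∧ P.L g = P.cf g t • vc P.L t ∧
      ∀ s ∈ P.all g, s ≠ Sum.inr k → s = t := by
  classical
  have hk' := P.mem_ops₀.1 hk
  have hka : (Sum.inr k : V ⊕ Gt) ∈ P.all g := P.inr_mem_all (P.mem_ops.2 hk'.1)
  have h2 := P.all_card g
  have h3 := card_erase_of_mem hka
  rcases Nat.lt_or_ge ((P.all g).erase (Sum.inr k)).card 1 with h1 | h1
  · left
    refine L_of_all fun s hs => ?_
    by_cases hsk : s = Sum.inr k
    · rw [hsk]
      exact hk'.2
    · have h4 : s ∈ (P.all g).erase (Sum.inr k) := mem_erase.2 ⟨hsk, hs⟩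
      rw [card_eq_zero.1 (show ((P.all g).erase (Sum.inr k)).card = 0 by omega)] at h4
      exact absurd h4 (notMem_empty _)
  · right
    obtain ⟨t, ht⟩ := card_eq_one.1 (show ((P.all g).erase (Sum.inr k)).card = 1 by omega)
    have htm : t ∈ (P.all g).erase (Sum.inr k) := by rw [ht]; exact mem_singleton_self t
    have hall : ∀ s ∈ P.all g, s ≠ Sum.inr k → s = t := by
      intro s hs hsk
      have h4 : s ∈ (P.all g).erase (Sum.inr k) := mem_erase.2 ⟨hsk, hs⟩
      rw [ht] at h4
      exact mem_singleton.1 h4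
    refine ⟨t, (mem_erase.1 htm).2, (mem_erase.1 htm).1, L_of_sub t fun s hs hne => ?_, hall⟩
    by_cases hsk : s = Sum.inr k
    · rw [hsk]
      exact hk'.2
    · exact absurd (hall s hs hsk) hne

theorem ops₀_of_cancel {g : Gt} (h0 : P.L g = 0) (hi : ¬ P.Inner g) : (P.ops₀ g).card = 0 := by
  by_contra hne
  obtain ⟨k, hk⟩ := card_pos.1 (Nat.pos_of_ne_zero hne)
  unfold Inner at hi
  push Not at hi
  obtain ⟨h, hh, hh'⟩ := hi
  have hhk : (Sum.inr h : V ⊕ Gt) ≠ Sum.inr k := by
    intro h1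
    rw [Sum.inr_injective h1] at hh'
    exact hh' (P.mem_ops₀.1 hk).2
  have hha : (Sum.inr h : V ⊕ Gt) ∈ P.all g := P.inr_mem_all (P.mem_ops.2 hh)
  have hL : P.L g = P.cf g (Sum.inr h) • P.L h := by
    classical
    refine L_of_sub (Sum.inr h) fun s hs hne' => ?_
    by_cases hsk : s = Sum.inr k
    · rw [hsk]
      exact (P.mem_ops₀.1 hk).2
    · exfalso
      have h3 : ({Sum.inr h, Sum.inr k, s} : Finset (V ⊕ Gt)) ⊆ P.all g := by
        intro z hz
        rw [mem_insert, mem_insert, mem_singleton] at hz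
        rcases hz with rfl | rfl | rfl
        · exact hha
        · exact P.inr_mem_all (P.mem_ops.2 (P.mem_ops₀.1 hk).1)
        · exact hs
      have h4 := card_le_card h3
      rw [card_eq_three.2 ⟨_, _, _, hhk, Ne.symm hne', Ne.symm hsk, rfl⟩] at h4
      have := P.all_card g
      omega
  rw [h0] at hL
  rcases smul_eq_zero.1 hL.symm with h5 | h5
  · exact (P.cq_ne hh).2 h5
  · exact hh' h5

theorem ops₀_of_lead {g : Gt} (hl : P.Lead g) : (P.ops₀ g).card = 0 := by
  by_contra hne
  obtain ⟨k, hk⟩ := card_pos.1 (Nat.pos_of_ne_zero hne)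
  rcases other hk with h | ⟨t, ht, _, h, _⟩
  · exact hl.1 h
  · exact not_lead_of (P.mem_all.1 ht) h hl

theorem ops₀_of_ne {g : Gt} (h0 : P.L g ≠ 0) : (P.ops₀ g).card + 1 ≤ (P.all g).card := by
  classical
  have h1 : (P.ops₀ g).image (Sum.inr : Gt → V ⊕ Gt) ⊂ P.all g := by
    refine ⟨?_, fun hsub => h0 (L_of_all fun s hs => ?_)⟩
    · intro s hs
      obtain ⟨k, hk, rfl⟩ := mem_image.1 hs
      exact P.inr_mem_all (P.mem_ops.2 (P.mem_ops₀.1 hk).1)
    · obtain ⟨k, hk, rfl⟩ := mem_image.1 (hsub hs)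
      exact (P.mem_ops₀.1 hk).2
  have h2 := card_lt_card h1
  rw [card_image_of_injective _ Sum.inr_injective] at h2
  exact h2

theorem L_of_single {g : Gt} (h1 : (P.all g).card = 1) (hi : ¬ P.Inner g) : P.L g ≠ 0 := by
  intro h0
  unfold Inner at hi
  push Not at hi
  obtain ⟨h, hh, hh'⟩ := hi
  have hha : (Sum.inr h : V ⊕ Gt) ∈ P.all g := P.inr_mem_all (P.mem_ops.2 hh)
  obtain ⟨t, ht⟩ := card_eq_one.1 h1
  have hL : P.L g = P.cf g (Sum.inr h) • P.L h := by
    refine L_of_sub (Sum.inr h) fun s hs hne' => ?_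
    rw [ht, mem_singleton] at hs hha
    exact absurd (hs.trans hha.symm) hne'
  rw [h0] at hL
  rcases smul_eq_zero.1 hL.symm with h5 | h5
  · exact (P.cq_ne hh).2 h5
  · exact hh' h5

theorem canc_of {g : Gt} (hp : ¬ P.pd g) (h0 : P.L g = 0) (hQ : P.Q g ≠ 0) (hi : ¬ P.Inner g) :
    P.Canc g := by
  unfold Inner at hi
  push Not at hi
  obtain ⟨h, hh, hh'⟩ := hi
  exact ⟨hp, h0, hQ, Sum.inr h, (P.cq_ne hh).2, hh'⟩

/-- `1` if the proposition is true -/
noncomputable def ind (p : Prop) : ℕ := by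
  classical
  exact if p then 1 else 0

theorem ind_pos {p : Prop} (h : p) : ind p = 1 := by
  unfold ind
  rw [if_pos h]

theorem ind_neg {p : Prop} (h : ¬ p) : ind p = 0 := by
  unfold ind
  rw [if_neg h]

/-- the inequality for every step -/
theorem point (outs : Finset Gt) (hL : ∀ o ∈ outs, P.L o = 0) (hQ : ∀ o ∈ outs, P.Q o ≠ 0)
    (g : Gt) :
    ind (P.Lead g) + ind (P.Reach outs g ∧ P.pd g) + ind (P.Reach₀ outs g ∧ ¬ P.Inner g) +
      ind (P.Reach₀ outs g ∧ P.Inner g) * (P.ops g).card +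
      ind (P.Reach outs g ∧ ¬ (P.Reach₀ outs g ∧ P.Inner g)) * (P.ops₀ g).card ≤
    ind (P.Two g) + 4 * ind (P.Mix g) + ind (P.Reach₀ outs g ∧ P.Inner g) +
      ind (P.Reach outs g ∧ ¬ P.Reach₀ outs g ∧ P.L g = 0) ∧
    ind (P.Lead g) + ind (P.Reach outs g ∧ P.pd g) + 2 * ind (P.Reach₀ outs g ∧ ¬ P.Inner g) +
      ind (P.Reach₀ outs g ∧ P.Inner g) * (P.ops g).card +
      ind (P.Reach outs g ∧ ¬ (P.Reach₀ outs g ∧ P.Inner g)) * (P.ops₀ g).card ≤
    ind (P.Two g) + ind (P.Canc g) + 4 * ind (P.Mix g) + ind (P.Reach₀ outs g ∧ P.Inner g) +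
      ind (P.Reach outs g ∧ ¬ P.Reach₀ outs g ∧ P.L g = 0) := by
  have ha := P.all_card g
  have ho := P.ops_card_le g
  have ho₀ := P.ops₀_le g
  -- the cases for the number of operands
  by_cases hp : P.pd g
  · have hTwo : ind (P.Two g) = 0 := ind_neg fun h => h.1 hp
    by_cases hc : (P.all g).card = 0
    · have hMix : ind (P.Mix g) = 0 := ind_neg fun h => h.2 hc
      have hLd : ind (P.Lead g) = 0 := ind_neg (not_lead_of_card (by omega))
      have hin : P.Inner g := inner_of_card hc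
      have hLg := L_of_card hc
      by_cases hr : P.Reach outs g
      · by_cases hr₀ : P.Reach₀ outs g
        · simp only [hTwo, hMix, hLd, ind_pos (show P.Reach outs g ∧ P.pd g from ⟨hr, hp⟩),
            ind_neg (show ¬ (P.Reach₀ outs g ∧ ¬ P.Inner g) from fun h => h.2 hin),
            ind_pos (show P.Reach₀ outs g ∧ P.Inner g from ⟨hr₀, hin⟩),
            ind_neg (show ¬ (P.Reach outs g ∧ ¬ (P.Reach₀ outs g ∧ P.Inner g)) from
              fun h => h.2 ⟨hr₀, hin⟩)]
          omega
        · simp only [hTwo, hMix, hLd, ind_pos (show P.Reach outs g ∧ P.pd g from ⟨hr, hp⟩),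
            ind_neg (show ¬ (P.Reach₀ outs g ∧ ¬ P.Inner g) from fun h => h.2 hin),
            ind_neg (show ¬ (P.Reach₀ outs g ∧ P.Inner g) from fun h => hr₀ h.1),
            ind_pos (show P.Reach outs g ∧ ¬ (P.Reach₀ outs g ∧ P.Inner g) from
              ⟨hr, fun h => hr₀ h.1⟩),
            ind_pos (show P.Reach outs g ∧ ¬ P.Reach₀ outs g ∧ P.L g = 0 from ⟨hr, hr₀, hLg⟩)]
          omega
      · have hr₀ : ¬ P.Reach₀ outs g := fun h => hr h.reach
        simp only [hTwo, hMix, hLd, ind_neg (show ¬ (P.Reach outs g ∧ P.pd g) from fun h => hr h.1),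
          ind_neg (show ¬ (P.Reach₀ outs g ∧ ¬ P.Inner g) from fun h => hr₀ h.1),
          ind_neg (show ¬ (P.Reach₀ outs g ∧ P.Inner g) from fun h => hr₀ h.1),
          ind_neg (show ¬ (P.Reach outs g ∧ ¬ (P.Reach₀ outs g ∧ P.Inner g)) from
            fun h => hr h.1)]
        omega
    · have hMix : ind (P.Mix g) = 1 := ind_pos ⟨hp, hc⟩
      have hLd : ind (P.Lead g) ≤ 1 := by
        unfold ind
        split_ifs <;> omega
      by_cases hr : P.Reach outs g
      · by_cases hr₀ : P.Reach₀ outs g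
        · have hLd' : ind (P.Lead g) = 0 := ind_neg fun h => h.1 (hr₀.lin hL)
          by_cases hin : P.Inner g
          · simp only [hTwo, hMix, hLd', ind_pos (show P.Reach outs g ∧ P.pd g from ⟨hr, hp⟩),
              ind_neg (show ¬ (P.Reach₀ outs g ∧ ¬ P.Inner g) from fun h => h.2 hin),
              ind_pos (show P.Reach₀ outs g ∧ P.Inner g from ⟨hr₀, hin⟩),
              ind_neg (show ¬ (P.Reach outs g ∧ ¬ (P.Reach₀ outs g ∧ P.Inner g)) from
                fun h => h.2 ⟨hr₀, hin⟩)]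
            omega
          · have h1 := ops₀_lt hin
            simp only [hTwo, hMix, hLd', ind_pos (show P.Reach outs g ∧ P.pd g from ⟨hr, hp⟩),
              ind_pos (show P.Reach₀ outs g ∧ ¬ P.Inner g from ⟨hr₀, hin⟩),
              ind_neg (show ¬ (P.Reach₀ outs g ∧ P.Inner g) from fun h => hin h.2),
              ind_pos (show P.Reach outs g ∧ ¬ (P.Reach₀ outs g ∧ P.Inner g) from
                ⟨hr, fun h => hin h.2⟩)]
            omega
        · simp only [hTwo, hMix, ind_pos (show P.Reach outs g ∧ P.pd g from ⟨hr, hp⟩),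
            ind_neg (show ¬ (P.Reach₀ outs g ∧ ¬ P.Inner g) from fun h => hr₀ h.1),
            ind_neg (show ¬ (P.Reach₀ outs g ∧ P.Inner g) from fun h => hr₀ h.1),
            ind_pos (show P.Reach outs g ∧ ¬ (P.Reach₀ outs g ∧ P.Inner g) from
              ⟨hr, fun h => hr₀ h.1⟩)]
          omega
      · have hr₀ : ¬ P.Reach₀ outs g := fun h => hr h.reach
        simp only [hTwo, hMix, ind_neg (show ¬ (P.Reach outs g ∧ P.pd g) from fun h => hr h.1),
          ind_neg (show ¬ (P.Reach₀ outs g ∧ ¬ P.Inner g) from fun h => hr₀ h.1),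
          ind_neg (show ¬ (P.Reach₀ outs g ∧ P.Inner g) from fun h => hr₀ h.1),
          ind_neg (show ¬ (P.Reach outs g ∧ ¬ (P.Reach₀ outs g ∧ P.Inner g)) from
            fun h => hr h.1)]
        omega
  · have hMix : ind (P.Mix g) = 0 := ind_neg fun h => hp h.1
    have hpr : ind (P.Reach outs g ∧ P.pd g) = 0 := ind_neg fun h => hp h.2
    by_cases hr : P.Reach outs g
    · have hQg := hr.quad hQ
      have hc : (P.all g).card ≠ 0 := fun h => hQg (Q_of_card h hp)
      by_cases hc1 : (P.all g).card = 1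
      · have hLd : ind (P.Lead g) = 0 := ind_neg (not_lead_of_card (by omega))
        by_cases hr₀ : P.Reach₀ outs g
        · have hin : P.Inner g := by
            by_contra hin
            exact L_of_single hc1 hin (hr₀.lin hL)
          simp only [hMix, hpr, hLd,
            ind_neg (show ¬ (P.Reach₀ outs g ∧ ¬ P.Inner g) from fun h => h.2 hin),
            ind_pos (show P.Reach₀ outs g ∧ P.Inner g from ⟨hr₀, hin⟩),
            ind_neg (show ¬ (P.Reach outs g ∧ ¬ (P.Reach₀ outs g ∧ P.Inner g)) from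
              fun h => h.2 ⟨hr₀, hin⟩)]
          omega
        · by_cases hLg : P.L g = 0
          · simp only [hMix, hpr, hLd,
              ind_neg (show ¬ (P.Reach₀ outs g ∧ ¬ P.Inner g) from fun h => hr₀ h.1),
              ind_neg (show ¬ (P.Reach₀ outs g ∧ P.Inner g) from fun h => hr₀ h.1),
              ind_pos (show P.Reach outs g ∧ ¬ (P.Reach₀ outs g ∧ P.Inner g) from
                ⟨hr, fun h => hr₀ h.1⟩),
              ind_pos (show P.Reach outs g ∧ ¬ P.Reach₀ outs g ∧ P.L g = 0 from ⟨hr, hr₀, hLg⟩)]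
            omega
          · have h1 := ops₀_of_ne hLg
            simp only [hMix, hpr, hLd,
              ind_neg (show ¬ (P.Reach₀ outs g ∧ ¬ P.Inner g) from fun h => hr₀ h.1),
              ind_neg (show ¬ (P.Reach₀ outs g ∧ P.Inner g) from fun h => hr₀ h.1),
              ind_pos (show P.Reach outs g ∧ ¬ (P.Reach₀ outs g ∧ P.Inner g) from
                ⟨hr, fun h => hr₀ h.1⟩)]
            omega
      · have hTwo : ind (P.Two g) = 1 := ind_pos ⟨hp, by omega⟩
        by_cases hr₀ : P.Reach₀ outs g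
        · have hLd : ind (P.Lead g) = 0 := ind_neg fun h => h.1 (hr₀.lin hL)
          by_cases hin : P.Inner g
          · simp only [hMix, hpr, hLd, hTwo,
              ind_neg (show ¬ (P.Reach₀ outs g ∧ ¬ P.Inner g) from fun h => h.2 hin),
              ind_pos (show P.Reach₀ outs g ∧ P.Inner g from ⟨hr₀, hin⟩),
              ind_neg (show ¬ (P.Reach outs g ∧ ¬ (P.Reach₀ outs g ∧ P.Inner g)) from
                fun h => h.2 ⟨hr₀, hin⟩)]
            omega
          · have h1 := ops₀_of_cancel (hr₀.lin hL) hin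
            have h2 : ind (P.Canc g) = 1 := ind_pos (canc_of hp (hr₀.lin hL) hQg hin)
            simp only [hMix, hpr, hLd, hTwo, h1, h2,
              ind_pos (show P.Reach₀ outs g ∧ ¬ P.Inner g from ⟨hr₀, hin⟩),
              ind_neg (show ¬ (P.Reach₀ outs g ∧ P.Inner g) from fun h => hin h.2)]
            omega
        · by_cases hLg : P.L g = 0
          · have hLd : ind (P.Lead g) = 0 := ind_neg fun h => h.1 hLg
            simp only [hMix, hpr, hLd, hTwo,
              ind_neg (show ¬ (P.Reach₀ outs g ∧ ¬ P.Inner g) from fun h => hr₀ h.1),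
              ind_neg (show ¬ (P.Reach₀ outs g ∧ P.Inner g) from fun h => hr₀ h.1),
              ind_pos (show P.Reach outs g ∧ ¬ (P.Reach₀ outs g ∧ P.Inner g) from
                ⟨hr, fun h => hr₀ h.1⟩),
              ind_pos (show P.Reach outs g ∧ ¬ P.Reach₀ outs g ∧ P.L g = 0 from ⟨hr, hr₀, hLg⟩)]
            omega
          · by_cases hld : P.Lead g
            · have h1 := ops₀_of_lead hld
              simp only [hMix, hpr, hTwo, h1, ind_pos hld,
                ind_neg (show ¬ (P.Reach₀ outs g ∧ ¬ P.Inner g) from fun h => hr₀ h.1),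
                ind_neg (show ¬ (P.Reach₀ outs g ∧ P.Inner g) from fun h => hr₀ h.1)]
              omega
            · have h1 := ops₀_of_ne hLg
              simp only [hMix, hpr, hTwo, ind_neg hld,
                ind_neg (show ¬ (P.Reach₀ outs g ∧ ¬ P.Inner g) from fun h => hr₀ h.1),
                ind_neg (show ¬ (P.Reach₀ outs g ∧ P.Inner g) from fun h => hr₀ h.1),
                ind_pos (show P.Reach outs g ∧ ¬ (P.Reach₀ outs g ∧ P.Inner g) from
                  ⟨hr, fun h => hr₀ h.1⟩)]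
              omega
    · have hr₀ : ¬ P.Reach₀ outs g := fun h => hr h.reach
      have h1 : ind (P.Lead g) ≤ ind (P.Two g) := by
        by_cases hld : P.Lead g
        · have h2 : ¬ (P.all g).card ≤ 1 := fun h => not_lead_of_card h hld
          rw [ind_pos hld, ind_pos (show P.Two g from ⟨hp, by omega⟩)]
        · rw [ind_neg hld]
          exact Nat.zero_le _
      simp only [hMix, hpr,
        ind_neg (show ¬ (P.Reach₀ outs g ∧ ¬ P.Inner g) from fun h => hr₀ h.1),
        ind_neg (show ¬ (P.Reach₀ outs g ∧ P.Inner g) from fun h => hr₀ h.1),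
        ind_neg (show ¬ (P.Reach outs g ∧ ¬ (P.Reach₀ outs g ∧ P.Inner g)) from fun h => hr h.1)]
      omega

end Prg

end Pool.Agent.H706.HC
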