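import Pool.Agent.H706.HC.Form

set_option autoImplicit false

/-!
# Programs up to second order, with the true quadratic parts
-/

namespace Pool.Agent.H706.HC

open Finset Pool.Agent.H88R3.MM Pool.Agent.W946.Kos Pool.Agent.W946.Sz

/-- the linear form of a symbol: a variable or the result of a step -/
def vc {F V Gt : Type*} [Field F] [DecidableEq V] (L : Gt → V → F) : V ⊕ Gt → V → F :=
  Sum.elim (fun x => Pi.single x 1) L

open Classical in
/-- a program up to second order -/
structure Prg (F V Gt : Type*) [Field F] [Fintype V] [DecidableEq V] [Fintype Gt]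
    [LinearOrder Gt] where
  L : Gt → V → F
  Q : Gt → MvPolynomial V F
  cf : Gt → V ⊕ Gt → F
  cf_lt : ∀ g h, cf g (Sum.inr h) ≠ 0 → h < g
  cf_card : ∀ g, (univ.filter fun s => cf g s ≠ 0).card ≤ 2
  pd : Gt → Prop
  a : Gt → V → F
  b : Gt → V → F
  L_eq : ∀ g, L g = ∑ s, cf g s • vc L s
  Q_eq : ∀ g, Q g = ∑ h, cf g (Sum.inr h) • Q h + if pd g then form (a g) * form (b g) else 0

variable {F V Gt : Type*} [Field F] [Fintype V] [DecidableEq V] [Fintype Gt] [LinearOrder Gt]

namespace Prg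

open Classical in
/-- the coefficients of the operands whose quadratic parts are not zero -/
noncomputable def cq (P : Prg F V Gt) (g h : Gt) : F := if P.Q h = 0 then 0 else P.cf g (Sum.inr h)

open Classical in
/-- the product of a step -/
noncomputable def pr (P : Prg F V Gt) (g : Gt) : MvPolynomial V F :=
  if P.pd g then form (P.a g) * form (P.b g) else 0

variable (P : Prg F V Gt)

theorem cq_ne {g h : Gt} (hh : P.cq g h ≠ 0) : P.Q h ≠ 0 ∧ P.cf g (Sum.inr h) ≠ 0 := by
  unfold cq at hh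
  by_cases h0 : P.Q h = 0
  · exact absurd (if_pos h0) hh
  · rw [if_neg h0] at hh
    exact ⟨h0, hh⟩

theorem cq_lt {g h : Gt} (hh : P.cq g h ≠ 0) : h < g := P.cf_lt g h (P.cq_ne hh).2

theorem cq_self (g : Gt) : P.cq g g = 0 := by
  by_contra h
  exact lt_irrefl _ (P.cq_lt h)

theorem Q_eq' (g : Gt) : P.Q g = ∑ h, P.cq g h • P.Q h + P.pr g := by
  rw [P.Q_eq g]
  congr 1
  refine sum_congr rfl fun h _ => ?_
  unfold cq
  by_cases h0 : P.Q h = 0
  · rw [h0, smul_zero, smul_zero]
  · rw [if_neg h0]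

/-- the equations between the derivatives with respect to the results of the steps -/
noncomputable def Hd (e g : Gt) : F := (if g = e then 1 else 0) - P.cq g e

theorem dual_identity (bar : Gt → F) :
    ∑ e, (∑ g, P.Hd e g * bar g) • P.Q e = ∑ g, bar g • P.pr g := by
  have h1 : ∀ g, bar g • P.pr g = bar g • P.Q g - ∑ e, (bar g * P.cq g e) • P.Q e := by
    intro g
    rw [P.Q_eq' g, smul_add, smul_sum]
    simp only [smul_smul]
    rw [add_sub_cancel_left]
  have h2 : ∀ e, (∑ g, P.Hd e g * bar g) • P.Q e = bar e • P.Q e -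
      ∑ g, (bar g * P.cq g e) • P.Q e := by
    intro e
    simp only [Hd, sub_mul, sum_sub_distrib, ite_mul, one_mul, zero_mul, sum_ite_eq', mem_univ,
      if_true, sub_smul, sum_smul]
    congr 1
    exact sum_congr rfl fun g _ => by rw [mul_comm]
  simp only [h1, h2, sum_sub_distrib]
  congr 1
  exact sum_comm

theorem dual_zero {bar : Gt → F} (h : ∀ e, ∑ g, P.Hd e g * bar g = 0) : bar = 0 := by
  funext e
  induction e using WellFoundedGT.induction with
  | _ e ih =>
  have h1 := h e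
  simp only [Hd, sub_mul, sum_sub_distrib, ite_mul, one_mul, zero_mul, sum_ite_eq', mem_univ,
    if_true] at h1
  rw [sub_eq_zero] at h1
  rw [h1, Pi.zero_apply]
  refine sum_eq_zero fun g _ => ?_
  by_cases h0 : P.cq g e = 0
  · rw [h0, zero_mul]
  · rw [ih g (P.cq_lt h0), Pi.zero_apply, mul_zero]

open Classical in
/-- the operands of a step whose quadratic parts are not zero -/
noncomputable def ops (g : Gt) : Finset Gt := univ.filter fun h => P.cq g h ≠ 0

open Classical in
/-- all operands of a step -/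
noncomputable def all (g : Gt) : Finset (V ⊕ Gt) := univ.filter fun s => P.cf g s ≠ 0

theorem all_card (g : Gt) : (P.all g).card ≤ 2 := P.cf_card g

theorem mem_ops {g h : Gt} : h ∈ P.ops g ↔ P.cq g h ≠ 0 := by
  classical
  unfold ops
  simp

theorem mem_all {g : Gt} {s : V ⊕ Gt} : s ∈ P.all g ↔ P.cf g s ≠ 0 := by
  classical
  unfold all
  simp

theorem inr_mem_all {g h : Gt} (hh : h ∈ P.ops g) : (Sum.inr h : V ⊕ Gt) ∈ P.all g :=
  P.mem_all.2 (P.cq_ne (P.mem_ops.1 hh)).2

theorem ops_card_le (g : Gt) : (P.ops g).card ≤ (P.all g).card :=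
  card_le_card_of_injOn Sum.inr (fun _ hh => P.inr_mem_all hh) Sum.inr_injective.injOn

/-- the steps which are used by the set `outs` -/
def Reach (outs : Finset Gt) (h : Gt) : Prop :=
  ∃ o ∈ outs, Relation.ReflTransGen (fun g h => P.cq g h ≠ 0) o h

/-- all operands (with quadratic part `≠ 0`) have linear part `0` -/
def Inner (g : Gt) : Prop := ∀ h, P.cq g h ≠ 0 → P.L h = 0

/-- the steps which are used by the set `outs` through steps without linear part -/
def Reach₀ (outs : Finset Gt) (h : Gt) : Prop :=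
  ∃ o ∈ outs, Relation.ReflTransGen (fun g h => P.Inner g ∧ P.cq g h ≠ 0) o h

variable {P}

theorem Reach₀.reach {outs : Finset Gt} {h : Gt} (hh : P.Reach₀ outs h) : P.Reach outs h := by
  obtain ⟨o, ho, h1⟩ := hh
  refine ⟨o, ho, ?_⟩
  induction h1 with
  | refl => exact Relation.ReflTransGen.refl
  | tail _ h ih => exact ih.tail h.2

theorem Reach₀.lin {outs : Finset Gt} (hout : ∀ o ∈ outs, P.L o = 0) {h : Gt}
    (hh : P.Reach₀ outs h) : P.L h = 0 := by
  obtain ⟨o, ho, h1⟩ := hh
  rcases Relation.ReflTransGen.cases_tail h1 with h2 | ⟨g, _, h2⟩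
  · rw [h2]
    exact hout o ho
  · exact h2.1 h h2.2

theorem Reach.quad {outs : Finset Gt} (hout : ∀ o ∈ outs, P.Q o ≠ 0) {h : Gt}
    (hh : P.Reach outs h) : P.Q h ≠ 0 := by
  obtain ⟨o, ho, h1⟩ := hh
  rcases Relation.ReflTransGen.cases_tail h1 with h2 | ⟨g, _, h2⟩
  · rw [h2]
    exact hout o ho
  · exact (P.cq_ne h2).1

theorem Reach.user {outs : Finset Gt} {h : Gt} (hh : P.Reach outs h) (ho : h ∉ outs) :
    ∃ g, P.Reach outs g ∧ P.cq g h ≠ 0 := by
  obtain ⟨o, ho', h1⟩ := hh
  rcases Relation.ReflTransGen.cases_tail h1 with h2 | ⟨g, h3, h2⟩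
  · rw [h2] at ho
    exact absurd ho' ho
  · exact ⟨g, ⟨o, ho', h3⟩, h2⟩

theorem Reach₀.user {outs : Finset Gt} {h : Gt} (hh : P.Reach₀ outs h) (ho : h ∉ outs) :
    ∃ g, P.Reach₀ outs g ∧ P.Inner g ∧ P.cq g h ≠ 0 := by
  obtain ⟨o, ho', h1⟩ := hh
  rcases Relation.ReflTransGen.cases_tail h1 with h2 | ⟨g, h3, h2⟩
  · rw [h2] at ho
    exact absurd ho' ho
  · exact ⟨g, ⟨o, ho', h3⟩, h2.1, h2.2⟩

theorem Reach.next {outs : Finset Gt} {g h : Gt} (hh : P.Reach outs g) (h0 : P.cq g h ≠ 0) :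
    P.Reach outs h := by
  obtain ⟨o, ho', h1⟩ := hh
  exact ⟨o, ho', h1.tail h0⟩

theorem Reach₀.next {outs : Finset Gt} {g h : Gt} (hh : P.Reach₀ outs g) (hi : P.Inner g)
    (h0 : P.cq g h ≠ 0) : P.Reach₀ outs h := by
  obtain ⟨o, ho', h1⟩ := hh
  exact ⟨o, ho', h1.tail ⟨hi, h0⟩⟩

theorem reach_out {outs : Finset Gt} {h : Gt} (ho : h ∈ outs) : P.Reach outs h :=
  ⟨h, ho, Relation.ReflTransGen.refl⟩

theorem reach₀_out {outs : Finset Gt} {h : Gt} (ho : h ∈ outs) : P.Reach₀ outs h :=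
  ⟨h, ho, Relation.ReflTransGen.refl⟩

/-- the quadratic part of a step is a combination of the products which are used by it. -/
theorem exists_comb (P : Prg F V Gt) (outs : Finset Gt) (g : Gt) (hg : P.Reach outs g) :
    ∃ c : Gt → F, (∀ h, c h ≠ 0 → P.Reach outs h ∧ P.pd h) ∧ P.Q g = ∑ h, c h • P.pr h := by
  classical
  induction g using WellFoundedLT.induction with
  | _ g ih =>
  have h1 : ∀ h : Gt, ∃ c : Gt → F, P.cq g h ≠ 0 → ((∀ h, c h ≠ 0 → P.Reach outs h ∧ P.pd h) ∧
      P.Q h = ∑ k, c k • P.pr k) := by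
    intro h
    by_cases h0 : P.cq g h = 0
    · exact ⟨0, fun h' => absurd h0 h'⟩
    · obtain ⟨c, hc⟩ := ih h (P.cq_lt h0) (hg.next h0)
      exact ⟨c, fun _ => hc⟩
  choose c hc using h1
  refine ⟨fun k => (∑ h, P.cq g h * c h k) + if k = g ∧ P.pd g then 1 else 0, fun k hk => ?_, ?_⟩
  · by_cases hkg : k = g ∧ P.pd g
    · rw [hkg.1]
      exact ⟨hg, hkg.2⟩
    · beta_reduce at hk
      rw [if_neg hkg, add_zero] at hk
      obtain ⟨h, _, hh⟩ := exists_ne_zero_of_sum_ne_zero hk
      exact (hc h (left_ne_zero_of_mul hh)).1 k (right_ne_zero_of_mul hh)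
  · rw [P.Q_eq' g]
    simp only [add_smul, sum_add_distrib, sum_smul]
    congr 1
    · rw [sum_comm]
      refine sum_congr rfl fun h _ => ?_
      by_cases h0 : P.cq g h = 0
      · simp [h0]
      · rw [(hc h h0).2, smul_sum]
        exact sum_congr rfl fun k _ => by rw [smul_smul]
    · rw [Finset.sum_eq_single g]
      · by_cases hp : P.pd g
        · rw [if_pos ⟨rfl, hp⟩, one_smul]
        · rw [if_neg fun h => hp h.2, zero_smul, pr, if_neg hp]
      · intro k _ hk
        rw [if_neg fun h => hk h.1, zero_smul]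
      · intro h
        exact absurd (mem_univ _) h

end Prg

end Pool.Agent.H706.HC
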