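import Pool.Agent.H706.HC.Count
import Pool.Graph.R_seed8.Y624.PaEight

set_option autoImplicit false

/-!
# Every combination of the entries of the product needs many products
-/

namespace Pool.Agent.H706.HC

open Finset Pool.Agent.H88R3.MM Pool.Agent.W946.Kos Pool.Agent.W946.Sz

variable {F Gt : Type*} [Field F] {m : ℕ} [Fintype Gt] [LinearOrder Gt]
  {P : Prg F (Vars m) Gt} {out : Fin m → Fin m → Gt}

theorem D2_entry_diag' (i j i' j' k k' : Fin m) :
    D2 (Sum.inl (i', k)) (Sum.inr (k', j')) (entry F m i j) =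
      if k' = k then (if i' = i ∧ j' = j then 1 else 0) else 0 := by
  rw [D2_entry]
  exact Pool.Agent.Y624.Pa.symM_diag i j i' j' k k'

theorem out_inj (hQ : ∀ i j, P.Q (out i j) = entry F m i j) {i j i' j' : Fin m}
    (h : out i j = out i' j') : i = i' ∧ j = j' := by
  have h1 := congrArg (D2 (Sum.inl (i, i)) (Sum.inr (i, j))) (hQ i j)
  rw [h, hQ i' j', D2_entry_diag', D2_entry_diag'] at h1
  simp only [if_true, and_self] at h1
  by_contra hne
  rw [if_neg hne] at h1
  exact zero_ne_one h1

/-- the outputs -/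
def outs (out : Fin m → Fin m → Gt) : Finset Gt :=
  univ.image fun a : Fin m × Fin m => out a.1 a.2

theorem card_outs (hQ : ∀ i j, P.Q (out i j) = entry F m i j) : (outs out).card = m ^ 2 := by
  rw [outs, card_image_of_injective, card_univ, Fintype.card_prod, Fintype.card_fin, sq]
  rintro ⟨i, j⟩ ⟨i', j'⟩ h
  obtain ⟨h1, h2⟩ := out_inj hQ h
  exact Prod.ext h1 h2

theorem D2_pr (g : Gt) (x y : Vars m) :
    D2 x y (P.pr g) = (Prg.ind (P.pd g) : F) * (P.a g x * P.b g y + P.a g y * P.b g x) := by
  classical
  unfold Prg.pr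
  by_cases h : P.pd g
  · rw [if_pos h, Prg.ind_pos h, D2_form, Nat.cast_one, one_mul]
  · rw [if_neg h, Prg.ind_neg h, Nat.cast_zero, zero_mul]
    unfold D2
    simp

theorem rich (hQ : ∀ i j, P.Q (out i j) = entry F m i j) {T : ℕ} (hT : 2 * T ≤ m) :
    P.Rich (outs out) T := by
  classical
  intro z bar hz hz0 heq A hA
  obtain ⟨e₀, he₀⟩ : ∃ e, z e ≠ 0 := Function.ne_iff.1 hz
  have heO : e₀ ∈ outs out := by
    by_contra h
    exact he₀ (hz0 e₀ h)
  obtain ⟨⟨i₀, j₀⟩, _, h0⟩ := mem_image.1 heO
  simp only at h0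
  have hD : ∀ x y, ∑ e, z e * D2 x y (P.Q e) = ∑ g, bar g * D2 x y (P.pr g) := by
    intro x y
    have h1 := congrArg (D2 x y) heq
    rw [D2_sum, D2_sum] at h1
    simp only [D2_smul] at h1
    exact h1
  -- the form
  have hform : ∀ k k' : Fin m, ∑ g, bar g * D2 (Sum.inl (i₀, k)) (Sum.inr (k', j₀)) (P.pr g) =
      if k' = k then z e₀ else 0 := by
    intro k k'
    rw [← hD, Finset.sum_eq_single e₀]
    · rw [← h0, hQ, D2_entry_diag']
      by_cases hk : k' = k
      · rw [if_pos hk, if_pos hk, if_pos ⟨rfl, rfl⟩, mul_one]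
      · rw [if_neg hk, if_neg hk, mul_zero]
    · intro e _ hne'
      by_cases he : e ∈ outs out
      · obtain ⟨⟨i, j⟩, _, h1⟩ := mem_image.1 he
        simp only at h1
        rw [← h1, hQ, D2_entry_diag']
        have h2 : ¬ (i₀ = i ∧ j₀ = j) := by
          rintro ⟨rfl, rfl⟩
          exact hne' (h1.symm.trans h0)
        rw [if_neg h2, ite_self, mul_zero]
      · rw [hz0 e he, zero_mul]
    · intro h
      exact absurd (mem_univ _) h
  set G : Finset (Vars m → F) := A.image P.a ∪ A.image P.b with hG
  have hGcard : G.card ≤ 2 * A.card := by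
    have h1 : (A.image P.a).card ≤ A.card := card_image_le
    have h2 : (A.image P.b).card ≤ A.card := card_image_le
    rw [hG]
    refine (card_union_le _ _).trans ?_
    omega
  have h1 : Fintype.card (Fin m) ≤ G.card := by
    refine card_le_of_diag (F := F)
      (fun k : Fin m => (fun y => ∑ g, bar g * D2 (Sum.inl (i₀, k)) y (P.pr g) : Vars m → F))
      (fun l => LinearMap.proj (Sum.inr (l, j₀))) he₀ (fun k l => ?_) G fun k => ?_
    · rw [LinearMap.proj_apply]
      exact hform k l
    · have h2 : (fun y => ∑ g, bar g * D2 (Sum.inl (i₀, k)) y (P.pr g) : Vars m → F) =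
          ∑ g, ((bar g * (Prg.ind (P.pd g) : F) * P.a g (Sum.inl (i₀, k))) • P.b g +
            (bar g * (Prg.ind (P.pd g) : F) * P.b g (Sum.inl (i₀, k))) • P.a g) := by
        funext y
        simp only [Finset.sum_apply, Pi.add_apply, Pi.smul_apply, smul_eq_mul, D2_pr]
        exact sum_congr rfl fun g _ => by ring
      rw [h2]
      refine Submodule.sum_mem _ fun g _ => ?_
      by_cases hg : g ∈ A
      · refine Submodule.add_mem _ (Submodule.smul_mem _ _ (Submodule.subset_span ?_))
          (Submodule.smul_mem _ _ (Submodule.subset_span ?_))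
        · rw [hG, coe_union, coe_image, coe_image]
          exact Or.inr ⟨g, hg, rfl⟩
        · rw [hG, coe_union, coe_image, coe_image]
          exact Or.inl ⟨g, hg, rfl⟩
      · have h3 : bar g = 0 := by
          by_contra h
          exact hg (hA g h)
        rw [h3, zero_mul, zero_mul, zero_mul, zero_smul, zero_smul, add_zero]
        exact Submodule.zero_mem _
  rw [Fintype.card_fin] at h1
  omega

/-- The entries of the product of two `m × m` matrices are linear combinations of `t` products of
two linear forms. -/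
def Suffice (F : Type*) [Field F] (m t : ℕ) : Prop :=
  ∃ p q : Fin t → MvPolynomial (Vars m) F, (∀ s, (p s).IsHomogeneous 1) ∧
    (∀ s, (q s).IsHomogeneous 1) ∧
    ∀ i j, entry F m i j ∈ Submodule.span F (Set.range fun s => p s * q s)

/-- the least number of products of two linear forms whose linear combinations contain all entries
of the product of two generic `m × m` matrices -/
noncomputable def quad (F : Type*) [Field F] (m : ℕ) : ℕ := sInf {t | Suffice F m t}

open Classical in
theorem quad_le (hQ : ∀ i j, P.Q (out i j) = entry F m i j) :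
    quad F m ≤ (univ.filter fun g => P.Reach (outs out) g ∧ P.pd g).card := by
  set A := univ.filter fun g => P.Reach (outs out) g ∧ P.pd g with hA
  refine Nat.sInf_le ?_
  change Suffice F m A.card
  set e := A.equivFin with he
  refine ⟨fun s => form (P.a (e.symm s).1), fun s => form (P.b (e.symm s).1),
    fun s => form_hom _, fun s => form_hom _, fun i j => ?_⟩
  obtain ⟨c, hc, hc'⟩ := Prg.exists_comb P (outs out) (out i j)
    (Prg.reach_out (mem_image.2 ⟨(i, j), mem_univ _, rfl⟩))
  rw [← hQ i j, hc']
  refine Submodule.sum_mem _ fun g _ => ?_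
  by_cases h0 : c g = 0
  · rw [h0, zero_smul]
    exact Submodule.zero_mem _
  · have hg : g ∈ A := by
      rw [hA, mem_filter]
      exact ⟨mem_univ _, hc g h0⟩
    refine Submodule.smul_mem _ _ (Submodule.subset_span ⟨e ⟨g, hg⟩, ?_⟩)
    simp only [Equiv.symm_apply_apply]
    unfold Prg.pr
    rw [if_pos (hc g h0).2]

end Pool.Agent.H706.HC
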